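import Pool.Agent.Q45.ND.AllE
import Pool.Agent.Q45.ND.Dat
import Pool.Agent.Q45.GM.Dpd

/-!
# Tate classes of the double planes branched along a rational curve with double points

Let `k` be a perfect field of characteristic different from `2`, with algebraic closure `k'`, let `a(u)`,
`c(u)` be polynomials over `k`, and let `P(t, x) = 0` be the equation of the curve
`C : (t, x) = (a(u), c(u))`; `P` is monic in `x`, of odd degree equal to the degree of `a`, irreducible over
`k'` and separable over the `t`-line. A node is a value `t = a(r)` at a singular point `(a(r), c(r))` of `C`;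
suppose that over each node there are exactly two such values `r` of the parameter (this holds for ordinary
double points and tacnodes, if `t` is different at different points), and that the number of the nodes is
odd and at least `7`. Suppose that `Gal(k' / k)` induces all the permutations of the nodes.

Let `X` be the double plane `w ^ 2 = P(t, x)`, `J` the Jacobian of the hyperelliptic curve
`w ^ 2 = P(t, x)` over `K = k(t)`, `F = k'(t)`, and `M` the `ℤ_2`-module of the classes of the continuous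
cocycles of `Gal(Sep F / F)` with values in the Tate module `T_2 J` which are locally trivial at all the
maximal ideals of `k'[t]`, with the action of `Gal(k' / k)`. Then `M` is free of finite rank, and the rank is
the number of the nodes, or the number of the nodes minus one, or at most one. Let `β` be a perfect symmetric
bilinear form on `M`, invariant under `Gal(k' / k)`, and suppose that some element of the image of
`Gal(k' / k)` in `Aut (M)` is `1` modulo `4` and different from `1`. Then there is a vector `v` in `M`, which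
is `0` or indivisible, such that `σ v = v` or `σ v = - v` for all `σ` in `Gal(k' / k)`, and such that for
every extension `E` of `k` in `k'` which is reached from `k` by finitely many steps, each of which is a finite
extension or an extension (possibly infinite) inside the maximal abelian extension:

(1) the vectors of `M` fixed by `Gal(k' / E)` are multiples of `v`;

(2) for EVERY free `ℤ_2`-module `N` of finite rank with an action of `Gal(k' / k)` such that some element of
`Gal(k' / k)` acts trivially on `N / 2 N` and not trivially on the nodes, there is a `j` such that for all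
`α` in `O(M, β)` with `α v = v` which are `1` modulo `2 ^ j`:

* for all `n` some `σ` in `Gal(k' / E)` acts on `M` as `α` modulo `2 ^ n`, and acts on `N` as `1` modulo
  `2 ^ n`;
* each `Gal(k' / E)`-equivariant multilinear map `Φ` from a power of `M` to `N` is invariant under `α`.
-/

set_option autoImplicit false
set_option linter.all false

open Polynomial IsDedekindDomain
open scoped Classical nonZeroDivisors

namespace Pool.Agent.Results.MP_2b5912_ag.NodalDoublePlanes

open Pool.Agent.Y160.SL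
open Pool.Agent.TH115.GD (rs ak Sep Comp)

/-- The polynomial `P(t, x)` over `k'`. -/
noncomputable def extendPoly {k : Type} [Field k] (k' : Type) [Field k'] [Algebra k k']
    (P : k[X][X]) : k'[X][X] := P.map (mapRingHom (algebraMap k k'))

/-- The polynomial `P(t, x)` over the field `K` which contains `k[t]`. -/
noncomputable def fPoly {k : Type} [Field k] (P : k[X][X]) (K : Type) [Field K] [Algebra k[X] K] :
    K[X] := P.map (algebraMap k[X] K)

section curve

variable {k : Type} [Field k] (k' : Type) [Field k'] [Algebra k k'] (P : k[X][X]) (a c : k[X])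

/-- `P(t, x) = 0` is the equation of the curve `(t, x) = (a(u), c(u))`, monic in `x` of odd degree equal to
the degree of `a`, irreducible over `k'` and separable over the `t`-line; the characteristic is not `2`. -/
structure IsEquation : Prop where
  two : (2 : k) ≠ 0
  monic : P.Monic
  odd : Odd P.natDegree
  degree : P.natDegree = a.natDegree
  irreducible : Irreducible (extendPoly k' P)
  separable : derivative P ≠ 0
  root : (P.map (compRingHom a)).eval c = 0

/-- The curve is singular at the point `(a(r), c(r))`: the equation lies in the square of the ideal of this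
point. -/
def IsSingularAt (r : k') : Prop :=
  extendPoly k' P ∈ RingHom.ker (evalEvalRingHom (aeval r a) (aeval r c)) ^ 2

/-- The values `t = a(r)` at the singular points. -/
def nodes : Set k' := {τ | ∃ r, IsSingularAt k' P a c r ∧ aeval r a = τ}

/-- Over each node there are exactly two values of the parameter at which the curve is singular. -/
def HasTwoBranches : Prop :=
  ∀ τ ∈ nodes k' P a c, {r | IsSingularAt k' P a c r ∧ aeval r a = τ}.ncard = 2

/-- The automorphisms of `k'` over `k` induce all the permutations of the nodes. -/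
def HasSymmetricGroup : Prop :=
  ∀ s : Equiv.Perm (nodes k' P a c), ∃ σ : k' ≃ₐ[k] k', ∀ τ : nodes k' P a c, σ τ = s τ

/-- The number of the nodes is odd and at least `7`. -/
def HasOddCard : Prop := Odd (Nat.card (nodes k' P a c)) ∧ 7 ≤ Nat.card (nodes k' P a c)

/-- Some automorphism of `k'` over `k` acts trivially on `N / 2 N` and does not fix all the nodes. -/
def IsUnrelated {N : Type} [AddCommGroup N] [Module ℤ_[2] N]
    (ν : (k' ≃ₐ[k] k') →* Module.End ℤ_[2] N) : Prop :=
  ∃ σ : k' ≃ₐ[k] k', (∀ y, ∃ z, ν σ y - y = (2 : ℤ_[2]) • z) ∧ ∃ τ ∈ nodes k' P a c, σ τ ≠ τ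

end curve

section gen

variable {K F Ω : Type} [Field K] [Field F] [Field Ω] [Algebra K F] [Algebra F Ω] [Algebra K Ω]
  [IsScalarTower K F Ω] (f : K[X])

/-- The sequences of cochains of `Gal(Ω / F)` with values in `J(Ω)`. -/
abbrev Cochain (F Ω : Type) [Field F] [Field Ω] [Algebra K Ω] [Algebra F Ω] (f : K[X]) : Type :=
  ℕ → (Ω ≃ₐ[F] Ω) → Jac 2 f Ω

/-- `c` is the coboundary of an element `R` of the Tate module `T_2 J`. -/
def IsTateCoboundary (c : Cochain F Ω f) : Prop :=
  ∃ R : ℕ → Jac 2 f Ω, IsTM 2 2 f R ∧ ∀ n, IsCobOf 2 f (c n) (R n)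

/-- The map `κ` identifies with `M` the group of the classes of the cocycles with the property `P`:
it is additive and surjective on these cocycles, and `κ c = 0` if and only if `c` is the coboundary of
an element of the Tate module. -/
structure IsClassMap (P : Cochain F Ω f → Prop) (M : Type) [AddCommGroup M]
    (κ : Cochain F Ω f → M) : Prop where
  surj : ∀ m, ∃ c, P c ∧ κ c = m
  add : ∀ c d, P c → P d → κ (c + d) = κ c + κ d
  zero : ∀ c, P c → (κ c = 0 ↔ IsTateCoboundary f c)

/-- `d` is the transform of the cochain `c` by the automorphism `T` of `Ω` over `K`: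
`d (σ) = T (c (σ'))`, where `σ' = T⁻¹ σ T`. -/
def IsTransform (T : Ω ≃ₐ[K] Ω) (c d : Cochain F Ω f) : Prop :=
  ∀ n (σ σ' : Ω ≃ₐ[F] Ω), (∀ x, T (σ' x) = σ (T x)) → d n σ = jm 2 f (ak T) (c n σ')

/-- The endomorphism `φ` of `M` is induced by the automorphism `T` of `Ω` over `K`. -/
def IsInduced (P : Cochain F Ω f → Prop) {M : Type} (κ : Cochain F Ω f → M) (T : Ω ≃ₐ[K] Ω)
    (φ : M → M) : Prop :=
  ∀ c d, P c → IsTransform f T c d → P d ∧ κ d = φ (κ c)

end gen

section rep

variable {G M : Type} [Group G] [AddCommGroup M] [Module ℤ_[2] M] (A : G → (M →ₗ[ℤ_[2]] M) → Prop)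
  (β : M → M → ℤ_[2])

/-- `β` is a perfect symmetric bilinear form on `M` which is invariant under the action; `A T φ` means that
`T` in the group `G` acts on `M` as `φ`. -/
structure IsPerfectForm : Prop where
  add : ∀ x y z, β (x + y) z = β x z + β y z
  smul : ∀ (c : ℤ_[2]) x y, β (c • x) y = c * β x y
  symm : ∀ x y, β x y = β y x
  perfect : ∀ x, (∀ y, (2 : ℤ_[2]) ∣ β x y) → ∃ x', x = (2 : ℤ_[2]) • x'
  inv : ∀ T φ, A T φ → ∀ x y, β (φ x) (φ y) = β x y

/-- Some element of the image of `G` is congruent to `1` modulo `4` and different from `1`. -/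
def HasInfiniteImage : Prop :=
  ∃ T φ, A T φ ∧ (∀ m, ∃ m', φ m - m = (4 : ℤ_[2]) • m') ∧ ∃ m, φ m ≠ m

end rep

section tower

variable {k k' : Type} [Field k] [Field k'] [Algebra k k']

/-- The extension `E` of `k` in `k'` is reached from `k` by finitely many steps, each of which is a finite
extension or an extension inside the maximal abelian extension. -/
inductive IsTower : IntermediateField k k' → Prop
  | base : IsTower ⊥
  | finite (E E' : IntermediateField k k') : FiniteDimensional k E' → IsTower E → IsTower (E ⊔ E')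
  | abelian (E E' : IntermediateField k k') :
      (∀ σ τ : k' ≃ₐ[k] k', σ ∈ E.fixingSubgroup → τ ∈ E.fixingSubgroup →
        ∀ x ∈ E', σ (τ x) = τ (σ x)) → IsTower E → IsTower E'

end tower

section sel

variable {K F : Type} [Field K] [Field F] [Algebra K F] (B : Type) [CommRing B] [IsDedekindDomain B]
  [Algebra B F] [IsFractionRing B F] (f : K[X])

/-- The restriction of the cochain `c` to the completion of `F` at every maximal ideal of the Dedekind
domain `B` with field of fractions `F` is a coboundary. -/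
def IsSelmer (c : (Sep F ≃ₐ[F] Sep F) → Jac 2 f (Sep F)) : Prop :=
  ∀ v : HeightOneSpectrum B, LocTriv 2 f (Comp B F v) (Sep (Comp B F v)) c

/-- `c` is a continuous cocycle of `Gal(Sep F / F)` with values in the Tate module `T_2 J` which is
locally trivial at all the maximal ideals of the Dedekind domain `B` with field of fractions `F`; its
component with values in `J[2 ^ n]` is `c n`. -/
def IsSelmerCocycle (c : Cochain F (Sep F) f) : Prop :=
  IsTC 2 2 f c ∧ ∀ n, IsSelmer B f (c n)

/-- The constants of `Sep F`. -/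
noncomputable def const {k' : Type} [Field k'] [Algebra k'[X] F] (x : k') : Sep F :=
  algebraMap F (Sep F) (algebraMap k'[X] F (C x))

/-- The automorphism `σ` of `k'` over `k` acts on the module of the classes as `φ`: some automorphism of
`Sep F` over `K` which extends `σ` induces `φ`. -/
def ActsAs {k k' : Type} [Field k] [Field k'] [Algebra k k'] [Algebra k'[X] F] {M : Type}
    [AddCommGroup M] [Module ℤ_[2] M] (κ : Cochain F (Sep F) f → M) (σ : k' ≃ₐ[k] k')
    (φ : M →ₗ[ℤ_[2]] M) : Prop :=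
  ∃ T : Sep F ≃ₐ[K] Sep F, (∀ x : k', T (const (F := F) x) = const (F := F) (σ x)) ∧
    IsInduced f (IsSelmerCocycle B f) κ T φ

end sel

section image

variable {k k' M : Type} [Field k] [Field k'] [Algebra k k'] [AddCommGroup M] [Module ℤ_[2] M]
  (A : (k' ≃ₐ[k] k') → (M →ₗ[ℤ_[2]] M) → Prop)

/-- The vector `v` is `0` or indivisible, the group acts on it through signs, and the vectors of `M` which
are fixed by the automorphisms over an extension `E` reached by a tower are multiples of `v`. -/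
structure IsExceptional (v : M) : Prop where
  indivisible : v = 0 ∨ ∀ x, v ≠ (2 : ℤ_[2]) • x
  sign : ∀ σ φ, A σ φ → φ v = v ∨ φ v = -v
  fixed : ∀ E : IntermediateField k k', IsTower E →
    ∀ x, (∀ σ ∈ E.fixingSubgroup, ∀ φ, A σ φ → φ x = x) → ∃ c : ℤ_[2], x = c • v

variable {N : Type} [AddCommGroup N] [Module ℤ_[2] N] (ν : (k' ≃ₐ[k] k') →* Module.End ℤ_[2] N)
  (H : Set (k' ≃ₐ[k] k')) (α : M ≃ₗ[ℤ_[2]] M)

/-- For all `n` some element of `H` acts as `α` on `M` modulo `2 ^ n` and acts trivially on `N` modulo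
`2 ^ n`. -/
def IsApproximated : Prop :=
  ∀ n : ℕ, ∃ σ ∈ H, (∃ φ, A σ φ ∧ ∀ m, ∃ m', φ m - α m = (2 : ℤ_[2]) ^ n • m') ∧
    ∀ y, ∃ z, ν σ y - y = (2 : ℤ_[2]) ^ n • z

/-- The `H`-equivariant multilinear maps from powers of `M` to `N` are invariant under `α`. -/
def FixesTensors : Prop :=
  ∀ (n : ℕ) (Φ : MultilinearMap ℤ_[2] (fun _ : Fin n => M) N),
    (∀ σ ∈ H, ∀ φ : M →ₗ[ℤ_[2]] M, A σ φ → ∀ x, Φ (fun s => φ (x s)) = ν σ (Φ x)) →
    ∀ x, Φ (fun s => α (x s)) = Φ x

/-- All the automorphisms `α` of `(M, β, v)` which are congruent to `1` modulo some power of `2` are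
approximated by elements of `H` which act trivially on `N`, and fix the tensors. -/
def HasOpenImage (β : M → M → ℤ_[2]) (v : M) : Prop :=
  ∃ j : ℕ, ∀ α : M ≃ₗ[ℤ_[2]] M, (∀ x y, β (α x) (α y) = β x y) → α v = v →
    (∀ m, ∃ m', α m - m = (2 : ℤ_[2]) ^ j • m') → IsApproximated A ν H α ∧ FixesTensors A ν H α

end image

/-- The rank of the module `M` is `n` or `n - 1`, or at most one. -/
def HasRank (M : Type) [AddCommGroup M] [Module ℤ_[2] M] (n : ℕ) : Prop :=
  Module.finrank ℤ_[2] M = n ∨ Module.finrank ℤ_[2] M + 1 = n ∨ Module.finrank ℤ_[2] M ≤ 1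

/-- The module `M` of the classes, with the action on it, has the property `R`. -/
def Concl {k k' K F : Type} [Field k] [Field k'] [Algebra k k'] [Field K] [Field F] [Algebra K F]
    [Algebra k'[X] F] (B : Type) [CommRing B] [IsDedekindDomain B] [Algebra B F] [IsFractionRing B F]
    (f : K[X]) (R : ∀ (M : Type) [AddCommGroup M] [Module ℤ_[2] M],
      ((k' ≃ₐ[k] k') → (M →ₗ[ℤ_[2]] M) → Prop) → Prop) : Prop :=
  ∃ (M : Type) (_ : AddCommGroup M) (_ : Module ℤ_[2] M) (_ : Module.Finite ℤ_[2] M)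
    (_ : Module.Free ℤ_[2] M) (κ : Cochain F (Sep F) f → M),
    IsClassMap f (IsSelmerCocycle B f) M κ ∧
    (∀ σ : k' ≃ₐ[k] k', ∃ φ : M →ₗ[ℤ_[2]] M, ActsAs B f κ σ φ) ∧ R M (ActsAs B f κ)

/-- The theorem. -/
def NodalPlanes : Prop :=
  ∀ (k k' K F : Type) [Field k] [Field k'] [Algebra k k'] [IsAlgClosed k']
    [Algebra.IsSeparable k k'] [Field K] [Algebra k[X] K] [IsFractionRing k[X] K] [Field F]
    [Algebra k'[X] F] [IsFractionRing k'[X] F] [Algebra K F] (P : k[X][X]) (a c : k[X]),
    (∀ p : k[X], algebraMap K F (algebraMap k[X] K p) =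
      algebraMap k'[X] F (p.map (algebraMap k k'))) →
    IsEquation k' P a c → HasTwoBranches k' P a c → HasSymmetricGroup k' P a c →
    HasOddCard k' P a c →
      Concl (F := F) k'[X] (fPoly P K) fun M _ _ act =>
        HasRank M (Nat.card (nodes k' P a c)) ∧
        ∀ β : M → M → ℤ_[2], IsPerfectForm act β → HasInfiniteImage act →
          ∃ v : M, IsExceptional act v ∧
            ∀ (N : Type) [AddCommGroup N] [Module ℤ_[2] N] [Module.Finite ℤ_[2] N]
              [Module.Free ℤ_[2] N] (ν : (k' ≃ₐ[k] k') →* Module.End ℤ_[2] N),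
              IsUnrelated k' P a c ν → ∀ E : IntermediateField k k', IsTower E →
                HasOpenImage act ν E.fixingSubgroup β v

open Pool.Agent.Q45.GM (SelT clsOf clsOf_surj clsOf_add clsOf_zero rho rho_cls rho_mul rho_one
  isGeom_rat cs cs_apply rho_congr)

section conv

variable {K F : Type} [Field K] [Field F] [Algebra K F] {B : Type} [CommRing B] [IsDedekindDomain B]
  [Algebra B F] [IsFractionRing B F] {f : K[X]}

theorem toTC {c : Cochain F (Sep F) f} (h : IsTC 2 2 f c) : Pool.Agent.Y160.SQ.IsTC 2 2 f c :=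
  ⟨fun n => ⟨(h.coc n).lc, (h.coc n).mul⟩, h.zero, h.step⟩

theorem ofTC {c : Cochain F (Sep F) f} (h : Pool.Agent.Y160.SQ.IsTC 2 2 f c) : IsTC 2 2 f c :=
  ⟨fun n => ⟨(h.coc n).lc, (h.coc n).mul⟩, h.zero, h.step⟩

/-- The classes of the cocycles. -/
theorem classMap : IsClassMap f (IsSelmerCocycle B f) (SelT (F := F) 2 B f 2) (clsOf B f) where
  surj m := by
    obtain ⟨c, ⟨h1, h2⟩, h3⟩ := clsOf_surj B f m
    exact ⟨c, ⟨ofTC h1, h2⟩, h3⟩
  add c d hc hd := clsOf_add B f (toTC hc.1) hc.2 (toTC hd.1) hd.2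
  zero c hc := by
    refine (clsOf_zero B f (toTC hc.1) hc.2).trans ⟨?_, ?_⟩
    · rintro ⟨R, hR, h⟩
      exact ⟨R, ⟨hR.zero, hR.step⟩, h⟩
    · rintro ⟨R, hR, h⟩
      exact ⟨R, ⟨hR.zero, hR.step⟩, h⟩

end conv


section acts

variable {k k' K F : Type} [Field k] [Field k'] [Algebra k k'] [IsSepClosed k']
  [Algebra.IsSeparable k k'] [Field K] [Algebra k[X] K] [Field F] [Algebra k'[X] F] [Algebra K F]

theorem induced_iff [IsFractionRing k'[X] F] (hF' : Pool.Agent.Q45.TW.IsGeom k k' K F) (f : K[X])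
    (T : Sep F ≃ₐ[K] Sep F)
    (φ : SelT (F := F) 2 k'[X] f 2 →ₗ[ℤ_[2]] SelT (F := F) 2 k'[X] f 2) :
    IsInduced f (IsSelmerCocycle k'[X] f) (clsOf k'[X] f) T φ ↔ φ = rho k'[X] hF' f T := by
  constructor
  · intro h
    refine LinearMap.ext fun m => ?_
    obtain ⟨c, ⟨hc, hcs⟩, rfl⟩ := clsOf_surj k'[X] f m
    have hcj := Pool.Agent.Q45.GM.lf_T k'[X] hF' f T
    have hd : IsTransform f T c (fun n σ => jm 2 f (ak T)
        (c n ((Pool.Agent.Q45.GM.lf k'[X] hF' f T).conj σ))) := by
      intro n σ σ' hσ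
      have h5 : (Pool.Agent.Q45.GM.lf k'[X] hF' f T).conj σ = σ' := by
        refine AlgEquiv.ext fun x => T.injective ?_
        rw [hσ]
        have h6 := (Pool.Agent.Q45.GM.lf k'[X] hF' f T).T_conj σ x
        rwa [hcj] at h6
      have h8 : ∀ ρ : Sep F ≃ₐ[F] Sep F, ρ = σ' →
          jm 2 f (ak T) (c n ρ) = jm 2 f (ak T) (c n σ') := by
        rintro ρ rfl
        rfl
      exact h8 _ h5
    have h7 := (h c _ ⟨ofTC hc, hcs⟩ hd).2
    rw [← h7]
    exact (rho_cls k'[X] hF' f T hc hcs hd).2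
  · rintro rfl c d hc hd
    obtain ⟨⟨h4, h5⟩, h6⟩ := rho_cls k'[X] hF' f T (toTC hc.1) hc.2 hd
    exact ⟨⟨ofTC h4, h5⟩, h6⟩

theorem acts_iff [IsFractionRing k'[X] F] (hF' : Pool.Agent.Q45.TW.IsGeom k k' K F) (f : K[X])
    (σ : k' ≃ₐ[k] k') (T : Sep F ≃ₐ[K] Sep F) (hT : ∀ x : k', T (cs k' F x) = cs k' F (σ x))
    (φ : SelT (F := F) 2 k'[X] f 2 →ₗ[ℤ_[2]] SelT (F := F) 2 k'[X] f 2) :
    ActsAs k'[X] f (clsOf k'[X] f) σ φ ↔ φ = rho k'[X] hF' f T := by
  constructor
  · rintro ⟨T', hT', h⟩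
    rw [(induced_iff hF' f T' φ).1 h]
    refine LinearMap.ext fun m => rho_congr k'[X] hF' f T' T (fun x => ?_) m
    rw [hT]
    exact hT' x
  · rintro rfl
    exact ⟨T, hT, (induced_iff hF' f T _).2 rfl⟩

end acts

/-- The towers give chains of subgroups. -/
theorem tower_chain {k k' : Type} [Field k] [Field k'] [Algebra k k'] [IsSepClosed k']
    [Algebra.IsSeparable k k'] {E : IntermediateField k k'} (h : IsTower E) :
    Pool.Agent.Q45.OI.Chain (E.fixingSubgroup) := by
  induction h with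
  | base =>
    rw [IntermediateField.fixingSubgroup_bot]
    exact Pool.Agent.Q45.OI.Chain.top
  | finite E E' hfin _ ih =>
    haveI : FiniteDimensional k E' := hfin
    obtain ⟨N, hN, hpow⟩ := Pool.Agent.Q45.OI.exists_exp_gal E'
    refine Pool.Agent.Q45.OI.Chain.pow N hN (fun σ hσ => ?_) ih
    rw [IntermediateField.fixingSubgroup_sup]
    exact ⟨pow_mem hσ N, hpow σ⟩
  | abelian E E' hab _ ih =>
    refine Pool.Agent.Q45.OI.Chain.comm (fun σ hσ τ hτ => ?_) ih
    rw [IntermediateField.mem_fixingSubgroup_iff]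
    intro x hx
    have h1 := hab σ⁻¹ τ⁻¹ (inv_mem hσ) (inv_mem hτ) x hx
    have h2 : (σ * τ * σ⁻¹ * τ⁻¹) x = σ (τ (σ⁻¹ (τ⁻¹ x))) := rfl
    rw [h2, h1]
    have h3 : ∀ (ρ : k' ≃ₐ[k] k') (y : k'), ρ (ρ⁻¹ y) = y := fun ρ y => by
      rw [← AlgEquiv.mul_apply, mul_inv_cancel]
      rfl
    rw [h3, h3]

/-- The form as a bilinear map. -/
theorem exists_form {G M : Type} [Group G] [AddCommGroup M] [Module ℤ_[2] M]
    {A : G → (M →ₗ[ℤ_[2]] M) → Prop} {β : M → M → ℤ_[2]} (h : IsPerfectForm A β) :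
    ∃ β' : M →ₗ[ℤ_[2]] M →ₗ[ℤ_[2]] ℤ_[2], ∀ x y, β' x y = β x y :=
  ⟨LinearMap.mk₂ ℤ_[2] β h.add h.smul (fun x y z => by rw [h.symm, h.add, h.symm y, h.symm z])
    (fun c x y => by rw [h.symm, h.smul, h.symm y]; rfl), fun x y => rfl⟩

section convert

variable {k k' : Type} [Field k] [Field k'] [Algebra k k'] {P : k[X][X]} {a c : k[X]}

theorem sing_iff (r : k') : IsSingularAt k' P a c r ↔ Pool.Agent.Q45.ND.Sg P a c r := by
  unfold IsSingularAt Pool.Agent.Q45.ND.Sg
  rw [eval_map_algebraMap, eval_map_algebraMap]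
  exact Iff.rfl

theorem mem_nodes (τ : k') : τ ∈ nodes k' P a c ↔
    ∃ r, Pool.Agent.Q45.ND.Sg P a c r ∧ (a.map (algebraMap k k')).eval r = τ := by
  constructor
  · rintro ⟨r, hr, h⟩
    exact ⟨r, (sing_iff r).1 hr, by rw [eval_map_algebraMap]; exact h⟩
  · rintro ⟨r, hr, h⟩
    exact ⟨r, (sing_iff r).2 hr, by rw [eval_map_algebraMap] at h; exact h⟩

/-- A bijection of subtypes. -/
def subEquiv {α : Type} {p q : α → Prop} (h : ∀ x, p x ↔ q x) : {x // p x} ≃ {x // q x} :=
  Equiv.subtypeEquivRight h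

theorem subEquiv_surj {α : Type} {p q : α → Prop} (h : ∀ x, p x ↔ q x) {G : Type}
    (A : G → α → α) (hp : ∀ s : Equiv.Perm {x // p x}, ∃ σ, ∀ τ : {x // p x}, A σ τ.1 = (s τ).1)
    (s : Equiv.Perm {x // q x}) : ∃ σ, ∀ τ : {x // q x}, A σ τ.1 = (s τ).1 := by
  obtain ⟨σ, hσ⟩ := hp ((subEquiv h).trans (s.trans (subEquiv h).symm))
  refine ⟨σ, fun τ => ?_⟩
  have h1 := hσ ((subEquiv h).symm τ)
  rw [Equiv.trans_apply, Equiv.trans_apply, Equiv.apply_symm_apply] at h1
  exact h1

theorem act_surj (hsym : HasSymmetricGroup k' P a c) :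
    Function.Surjective (Pool.Agent.Q45.ND.actO (k' := k') P a c) := by
  intro s
  obtain ⟨σ, hσ⟩ := subEquiv_surj mem_nodes (fun (σ : k' ≃ₐ[k] k') x => σ x) hsym s
  exact ⟨σ, Equiv.ext fun ω => Subtype.ext (hσ ω)⟩

end convert

section dat

open Pool.Agent.Q45.ND in
/-- The data of the double plane. -/
theorem nod_dat' {k k' K F : Type} [Field k] [Field k'] [Algebra k k'] [IsAlgClosed k']
    [Algebra.IsSeparable k k'] [Field K] [Algebra k[X] K] [IsFractionRing k[X] K] [Field F]
    [Algebra k'[X] F] [IsFractionRing k'[X] F] [Algebra K F] {P : k[X][X]} {a c : k[X]}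
    [Finite (OmP k' P a c)] (hF : Pool.Agent.Q45.TW.IsGeom k k' K F) (hP : IsEquation k' P a c)
    (hS : HasTwoBranches k' P a c) {f : K[X]} (hf : f = fPoly P K) :
    Module.Finite ℤ_[2] (SelT (F := F) 2 k'[X] f 2) ∧
      Module.Free ℤ_[2] (SelT (F := F) 2 k'[X] f 2) ∧
      (∀ τ : k' ≃ₐ[k] k', ∃ T : Sep F ≃ₐ[K] Sep F, ∀ x, T (cs k' F x) = cs k' F (τ x)) ∧
      ∃ κ : SelT (F := F) 2 k'[X] f 2 →+ (OmP k' P a c → ZMod 2),
        (∀ m, κ m = 0 ↔ ∃ m', m = (2 : ℤ_[2]) • m') ∧
        ∀ (T : Sep F ≃ₐ[K] Sep F) (τ : k' ≃ₐ[k] k'), (∀ x, T (cs k' F x) = cs k' F (τ x)) →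
          ∀ m ω, κ (rho k'[X] hF f T m) (actO P a c τ ω) = κ m ω := by
  subst hf
  exact nod_dat (K := K) (F := F) hF hP.two hP.monic
    hP.odd hP.degree hP.irreducible hP.separable hP.root (fun τ hτ => by
      have h1 := hS τ ((mem_nodes τ).2 hτ)
      rw [← h1]
      congr 1
      ext r
      simp only [Set.mem_setOf_eq]
      rw [sing_iff, eval_map_algebraMap])

end dat

section rep

variable {k k' K F : Type} [Field k] [Field k'] [Algebra k k'] [IsAlgClosed k']
  [Algebra.IsSeparable k k'] [Field K] [Algebra k[X] K] [IsFractionRing k[X] K] [Field F]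
  [Algebra k'[X] F] [IsFractionRing k'[X] F] [Algebra K F]

/-- The action as a representation. -/
theorem exists_rep (hF' : Pool.Agent.Q45.TW.IsGeom k k' K F) (f : K[X])
    (hext' : ∀ τ : k' ≃ₐ[k] k', ∃ T : Sep F ≃ₐ[K] Sep F, ∀ x, T (cs k' F x) = cs k' F (τ x)) :
    ∃ r : (k' ≃ₐ[k] k') →* (Module.End ℤ_[2] (SelT (F := F) 2 k'[X] f 2))ˣ,
      (∀ σ φ, ActsAs k'[X] f (clsOf k'[X] f) σ φ ↔
        φ = (r σ : Module.End ℤ_[2] (SelT (F := F) 2 k'[X] f 2))) ∧
      ∀ σ, ∃ T : Sep F ≃ₐ[K] Sep F, (∀ x, T (cs k' F x) = cs k' F (σ x)) ∧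
        ∀ m, (r σ : Module.End ℤ_[2] (SelT (F := F) 2 k'[X] f 2)) m = rho k'[X] hF' f T m := by
  choose ext hext using hext'
  refine ⟨{ toFun := fun σ => Pool.Agent.Q45.OI.rhoU k'[X] hF' f (ext σ)
            map_one' := Units.ext (LinearMap.ext fun m => by
              show rho k'[X] hF' f (ext 1) m = m
              rw [rho_congr k'[X] hF' f (ext 1) 1 (fun x => by rw [hext]; rfl) m]
              exact rho_one k'[X] hF' f m)
            map_mul' := fun σ τ => Units.ext (LinearMap.ext fun m => by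
              show rho k'[X] hF' f (ext (σ * τ)) m =
                rho k'[X] hF' f (ext σ) (rho k'[X] hF' f (ext τ) m)
              rw [← rho_mul]
              refine rho_congr k'[X] hF' f (ext (σ * τ)) (ext σ * ext τ) (fun x => ?_) m
              have h1 : (ext σ * ext τ) (cs k' F x) = ext σ (ext τ (cs k' F x)) := rfl
              rw [h1, hext, hext, hext]
              rfl) }, fun σ φ => ?_, fun σ => ⟨ext σ, hext σ, fun m => rfl⟩⟩
  exact acts_iff (K := K) (F := F) hF' f σ (ext σ) (hext σ) φ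

end rep

section finish

variable {k k' : Type} [Field k] [Field k'] [Algebra k k'] [IsAlgClosed k']
  [Algebra.IsSeparable k k'] {P : k[X][X]} {a c : k[X]} {M : Type} [AddCommGroup M]
  [Module ℤ_[2] M] [Module.Finite ℤ_[2] M] [Module.Free ℤ_[2] M]

/-- The conclusion, from the data. -/
theorem finish (hsym : HasSymmetricGroup k' P a c) (hcard : HasOddCard k' P a c)
    {A : (k' ≃ₐ[k] k') → (M →ₗ[ℤ_[2]] M) → Prop}
    (r : (k' ≃ₐ[k] k') →* (Module.End ℤ_[2] M)ˣ)
    (hA : ∀ σ φ, A σ φ ↔ φ = (r σ : Module.End ℤ_[2] M))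
    (κ : M →+ (Pool.Agent.Q45.ND.OmP k' P a c → ZMod 2))
    (hκ1 : ∀ m, κ m = 0 ↔ ∃ m', m = (2 : ℤ_[2]) • m')
    (hκ2 : ∀ σ m ω, κ ((r σ : Module.End ℤ_[2] M) m) (Pool.Agent.Q45.ND.actO P a c σ ω) = κ m ω) :
    HasRank M (Nat.card (nodes k' P a c)) ∧
        ∀ β : M → M → ℤ_[2], IsPerfectForm A β → HasInfiniteImage A →
          ∃ v : M, IsExceptional A v ∧
            ∀ (N : Type) [AddCommGroup N] [Module ℤ_[2] N] [Module.Finite ℤ_[2] N]
              [Module.Free ℤ_[2] N] (ν : (k' ≃ₐ[k] k') →* Module.End ℤ_[2] N),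
              IsUnrelated k' P a c ν → ∀ E : IntermediateField k k', IsTower E →
                HasOpenImage A ν E.fixingSubgroup β v := by
  haveI : Finite (nodes k' P a c) := Nat.finite_of_card_ne_zero (by
    have := hcard.2
    omega)
  letI : Fintype (Pool.Agent.Q45.ND.OmP k' P a c) :=
    @Fintype.ofFinite _ (Finite.of_equiv _ (subEquiv (mem_nodes (k' := k') (P := P) (a := a) (c := c))))
  have hc : Nat.card (nodes k' P a c) = Fintype.card (Pool.Agent.Q45.ND.OmP k' P a c) := by
    have h1 : Nat.card (nodes k' P a c) = Nat.card (Pool.Agent.Q45.ND.OmP k' P a c) :=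
      Nat.card_congr (subEquiv (mem_nodes (k' := k') (P := P) (a := a) (c := c)))
    rw [h1, Nat.card_eq_fintype_card]
  refine ⟨?_, fun β hβ hinf => ?_⟩
  · have h1 := Pool.Agent.Q45.ND.rank_le κ hκ1
    unfold HasRank
    rw [hc]
    rcases Pool.Agent.Q45.ND.rank_cases (ρ := r) (by rw [← hc]; exact hcard.1) hκ1 hκ2
      (act_surj hsym) with ⟨-, h2⟩ | ⟨-, h2⟩
    · exact Or.inr (Or.inr h2)
    · rcases Nat.lt_or_ge (Module.finrank ℤ_[2] M)
        (Fintype.card (Pool.Agent.Q45.ND.OmP k' P a c)) with h3 | h3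
      · exact Or.inr (Or.inl (le_antisymm h3 h2))
      · exact Or.inl (le_antisymm h1 h3)
  obtain ⟨β', hβ'⟩ := exists_form hβ
  have hdata : Pool.Agent.Q45.ND.Data0 r κ (Pool.Agent.Q45.ND.actO P a c) β' := by
    refine ⟨by rw [← hc]; exact hcard.1, by rw [← hc]; exact hcard.2, hκ1, hκ2,
      fun s => ?_, fun x y => ?_, fun x hx => ?_, fun σ x y => ?_, ?_⟩
    · exact act_surj hsym s
    · rw [hβ', hβ', hβ.symm]
    · refine (hκ1 x).2 (hβ.perfect x fun y => ?_)
      rw [← hβ']
      obtain ⟨b, hb⟩ := (Pool.Agent.Q45.OI.tz_zero_iff _).1 (hx y)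
      exact ⟨b, hb⟩
    · rw [hβ', hβ']
      exact hβ.inv σ _ ((hA σ _).2 rfl) x y
    · obtain ⟨σ, φ, hφ, h4, m, hm⟩ := hinf
      rw [(hA σ φ).1 hφ] at h4 hm
      refine ⟨σ, (Pool.Agent.Q45.OI.cg_iff _ _ _).2 fun m => ?_, fun h5 => hm ?_⟩
      · obtain ⟨m', hm'⟩ := h4 m
        exact ⟨m', hm'.trans (congrArg (fun c : ℤ_[2] => c • m') (by norm_num : (4 : ℤ_[2]) = 2 ^ 2))⟩
      · rw [h5]
        rfl
  obtain ⟨v, hv, hρv, hfix, hN⟩ := Pool.Agent.Q45.ND.open_true hdata
  refine ⟨v, ⟨?_, fun σ φ hφ => ?_, fun E hE x hx => ?_⟩, fun N _ _ _ _ ν hν E hE => ?_⟩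
  · rcases hv with hv | hv
    · exact Or.inl hv
    · right
      intro x hx
      obtain ⟨ω⟩ : Nonempty (Pool.Agent.Q45.ND.OmP k' P a c) := by
        rw [← Fintype.card_pos_iff, ← hc]
        exact hcard.1.pos
      have h1 := hv ω
      rw [(hκ1 v).2 ⟨x, hx⟩] at h1
      exact zero_ne_one h1
  · rw [(hA σ φ).1 hφ]
    exact hρv σ
  · exact hfix _ (tower_chain hE) x fun σ hσ => hx σ hσ _ ((hA σ _).2 rfl)
  obtain ⟨σ₀, hσ₀, τ₀, hτ₀, hne⟩ := hν
  obtain ⟨j, hj⟩ := hN N ν ⟨σ₀, hσ₀, fun h => hne (by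
    have h1 := congrArg Subtype.val (Equiv.ext_iff.1 h ⟨τ₀, (mem_nodes τ₀).1 hτ₀⟩)
    exact h1)⟩ _ (tower_chain hE)
  refine ⟨j, fun α hα hαv hα1 => ?_⟩
  have happ := hj α (fun x y => by rw [hβ', hβ']; exact hα x y) hαv hα1
  constructor
  · intro n
    obtain ⟨σ, hσ, h5, h6⟩ := happ n
    exact ⟨σ, hσ, ⟨(r σ : Module.End ℤ_[2] M), (hA σ _).2 rfl, h5⟩, h6⟩
  · intro n Φ hΦ x
    refine Pool.Agent.Q45.OI.fix_of_approx (ι := Unit) (M := fun _ => M) (fun _ => ()) Φ
      (fun _ => α) x fun m => ?_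
    obtain ⟨σ, hσ, h5, h6⟩ := happ m
    exact ⟨fun _ => (r σ : Module.End ℤ_[2] M), ν σ, fun _ => h5, h6,
      hΦ σ hσ (r σ : Module.End ℤ_[2] M) ((hA σ _).2 rfl) x⟩

end finish

theorem nodalPlanes : NodalPlanes := by
  intro k k' K F _ _ _ _ _ _ _ _ _ _ _ _ P a c hcomp hP hS hsym hcard
  have hF' := isGeom_rat (K := K) (F := F) hcomp
  haveI : Finite (nodes k' P a c) := Nat.finite_of_card_ne_zero (by
    have := hcard.2
    omega)
  haveI : Finite (Pool.Agent.Q45.ND.OmP k' P a c) :=
    Finite.of_equiv _ (subEquiv (mem_nodes (k' := k') (P := P) (a := a) (c := c)))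
  obtain ⟨i1, i2, hext', κ, hκ1, hκ2⟩ := nod_dat' (K := K) (F := F) hF' hP hS (f := fPoly P K) rfl
  obtain ⟨r, hr1, hr2⟩ := exists_rep hF' (fPoly P K) hext'
  refine ⟨SelT (F := F) 2 k'[X] (fPoly P K) 2, inferInstance, inferInstance, i1, i2,
    clsOf k'[X] (fPoly P K), classMap, fun σ => ⟨(r σ : Module.End ℤ_[2] _), (hr1 σ _).2 rfl⟩, ?_⟩
  refine finish hsym hcard r hr1 κ hκ1 fun σ m ω => ?_
  obtain ⟨T, hT, h⟩ := hr2 σ
  rw [h]
  exact hκ2 T σ hT m ω

/-- **Tate classes of the double planes branched along a rational curve with double points.** -/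
theorem result : NodalPlanes := nodalPlanes

end Pool.Agent.Results.MP_2b5912_ag.NodalDoublePlanes
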