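import Pool.Agent.Q226.SC.IMTMain

set_option autoImplicit false

/-!
# The integral Mumford-Tate conjecture for `H²` of simply connected surfaces implies it for `H²` of
# all varieties
-/

namespace Pool.Agent.Results.MP_2b5912_ag.SimplyConnectedSurfacesSuffice

open Pool.Agent.Q226.SC

/-- Let `k` be a finitely generated field of characteristic `0`, embedded in `ℂ`. Q1 holds for all
smooth projective varieties over all finite extensions of `k` if and only if it holds for all
geometrically simply connected smooth projective surfaces over `k`. -/
theorem result (G : Geo) (M : IMTData G) (F : IMTFacts M) :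
    (∀ X : G.Var, M.Bounded X) ↔ ∀ S : G.Var, G.dim S = 2 → G.SC S → M.Def S → M.Bounded S :=
  ⟨fun h S _ _ _ => h S, bounded_of_sc F⟩

end Pool.Agent.Results.MP_2b5912_ag.SimplyConnectedSurfacesSuffice
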