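import Pool.Agent.Q45.EM.Opn
import Pool.Agent.Q45.EM.Prm
import Pool.Agent.Q45.OI.P.PD
import Pool.Agent.Y160.SL.Conv

/-!
# Surfaces branched along sections of curves: open image and independence of an arbitrary variety

Let `k` be a field of characteristic different from two with separable closure `k'`, and let `P_i(t, w)`,
`i` in a finite set, be polynomials over `k`, monic of odd degree `n_i ≥ 3` in `w`, such that the plane
curves `C_i : P_i = 0` are isomorphic to the affine line over `k'`. Let `G_i(t)` be polynomials over `k`, such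
that `e_i(t) = P_i(t, G_i(t))` is separable and prime to the discriminant of `P_i`. Let `S_i` be the surface

`Y ^ 2 = (w - G_i(t)) P_i(t, w)`,

`J_i` the Jacobian of its generic fibre over the `t`-line, a curve over `K = k(t)`, `F = k'(t)`, and `M_i`
the `ℤ_2`-module of the classes of the continuous cocycles of `Gal(Sep F / F)` with values in the Tate module
`T_2 J_i` which are locally trivial at all the maximal ideals of `k'[t]`. Let `D_i` be the class in `M_i` of the
rational point of `J_i` given by the section, and `V_i = M_i / ℤ_2 D_i`; the group `Gal(k' / k)` acts on `V_i`.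

Let `N` be ANY free `ℤ_2`-module of finite rank with an action of `Gal(k' / k)`, for instance the cohomology
of any variety over `k`.

(1) Suppose that the degrees of the `e_i` are odd and at least `5`, that `Gal(k' / k)` induces all the
permutations of the roots of each `e_i`, and that for each `i` some element of it has order `3` on the roots
of `e_i`, fixes the roots of the other `e_j` and acts trivially on `N / 2 N`. Then the `V_i` are free of rank `0`
or `deg e_i - 1` and irreducible. Let `β_i` be an invariant symmetric bilinear form different from zero on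
`V_i`, suppose that the image of `Gal(k' / k)` in `Aut (V_i)` contains an element which is `1` modulo `4`
and different from `1`, and let `E` be an extension of `k` in `k'` which is reached from `k` by finitely many
steps, each of which is a finite extension or an extension (possibly infinite) inside the maximal abelian
extension. Then there is a `j` such that for all `α_i` in `O(V_i, β_i)` which are `1` modulo `2 ^ j`:

* for all `n` some `σ` in `Gal(k' / E)` acts on each `V_i` as `α_i` modulo `2 ^ n`, and acts on `N` as `1`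
  modulo `2 ^ n` (the image is open in the product of the orthogonal groups, and independent of `N`);
* each `Gal(k' / E)`-equivariant multilinear map `Φ` from a product of modules `V_i` to `N` is invariant
  under the `α_i`: `Φ(α x) = Φ(x)` (so the Tate classes on the products of powers of the `S_i` and a variety
  `Y` come from those of `Y` and from the invariants of the orthogonal groups).

(2) Let `k` be a number field, and let the polynomials `e_i` satisfy the conditions in (1), where the action of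
`Gal(k' / k)` on `N / 2 N` is trivial on the group of a finite extension. Let `P, G` be a further pair such
that `C : P = 0` is as above and `deg G` is odd, at least `3`, and large compared to `P`. Then for 100% of the
pairs `v` of integers, ordered by their size, the section `G + v₁ t + v₀` and the enlarged family satisfy the
conditions in (1). So (1) holds for almost all the sections and, one after another, for any number of surfaces.

(3) The conditions on the curve `C` are satisfied for `P = a(w) + t`, where `a` is monic of odd degree at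
least `3` and `k` has characteristic zero.
-/

set_option autoImplicit false
set_option linter.all false

open Polynomial IsDedekindDomain Filter Topology
open scoped Classical

namespace Pool.Agent.Results.MP_2b5912_ag.SurfacesBranchedAlongSections

open Pool.Agent.Y160.SL
open Pool.Agent.TH115.GD (incl ak Sep Comp)

/-- The partial derivative of `P(t, w)` with respect to `t`: the derivative is applied to the
coefficients. -/
noncomputable def derivT {k : Type} [Field k] (P : k[X][X]) : k[X][X] :=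
  P.sum fun i a => C (derivative a) * X ^ i

/-- The affine curve `P(t, w) = 0` is smooth. -/
def IsSmooth {k : Type} [Field k] (P : k[X][X]) : Prop :=
  ∃ a b c : k[X][X], a * P + b * derivative P + c * derivT P = 1

/-- The polynomial `P(t, w)` over `k'`. -/
noncomputable def extendPoly {k : Type} [Field k] (k' : Type) [Field k'] [Algebra k k']
    (P : k[X][X]) : k'[X][X] := P.map (mapRingHom (algebraMap k k'))

/-- The curve `P(t, w) = 0` over `k` is isomorphic to the affine line: its coordinate ring is isomorphic,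
as a `k`-algebra, to the ring of polynomials in one variable. -/
def IsAffineLine {k : Type} [Field k] (P : k[X][X]) : Prop :=
  Nonempty (AdjoinRoot P ≃ₐ[k] k[X])

/-- The polynomial `e(t) = P(t, G(t))`. -/
noncomputable def valueAt {k : Type} [Field k] (P : k[X][X]) (G : k[X]) : k[X] := P.eval G

/-- The polynomial `x ^ n + a₁ x ^ (n - 1) + a₂ e x ^ (n - 2) + ⋯ + a_n e ^ (n - 1)`, where `e = P(t, G)`
and `P(t, G + T) = e + a₁ T + a₂ T ^ 2 + ⋯ + a_n T ^ n`. -/
noncomputable def oddModel {k : Type} [Field k] (P : k[X][X]) (G : k[X]) : k[X][X] :=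
  X ^ P.natDegree + ∑ i ∈ Finset.range P.natDegree,
    C ((taylor G P).coeff (i + 1) * valueAt P G ^ i) * X ^ (P.natDegree - 1 - i)

/-- The same polynomial over the field `K` which contains `k[t]`. -/
noncomputable def fPoly {k : Type} [Field k] (P : k[X][X]) (G : k[X]) (K : Type) [Field K]
    [Algebra k[X] K] : K[X] := (oddModel P G).map (algebraMap k[X] K)

/-- The conditions on the curve `P(t, w) = 0` over `k`; `k'` is the separable closure of `k`. -/
structure IsCurve {k : Type} [Field k] (k' : Type) [Field k'] [Algebra k k'] (P : k[X][X]) :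
    Prop where
  two : (2 : k) ≠ 0
  monic : P.Monic
  odd : Odd P.natDegree
  three_le : 3 ≤ P.natDegree
  deriv_ne : derivative P ≠ 0
  smooth : IsSmooth P
  line : IsAffineLine (extendPoly k' P)

/-- The conditions on the curve `P(t, w) = 0` and on the section `w = G(t)` over `k`. -/
structure IsPair {k : Type} [Field k] (k' : Type) [Field k'] [Algebra k k'] (P : k[X][X])
    (G : k[X]) : Prop where
  curve : IsCurve k' P
  separable : (valueAt P G).Separable
  coprime : IsCoprime (valueAt P G) P.discr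

section roots

variable {k k' : Type} [Field k] [Field k'] [Algebra k k']

/-- All the permutations of the roots of `p` in `k'` are induced by automorphisms of `k'` over `k`. -/
def HasAllPermutations (k' : Type) [Field k'] [Algebra k k'] (p : k[X]) : Prop :=
  ∀ π : Equiv.Perm (p.rootSet k'), ∃ σ : k' ≃ₐ[k] k', ∀ r : p.rootSet k', σ r = (π r : k')

/-- The automorphism `σ` has order `3` on the roots of `p`. -/
def HasOrderThree (σ : k' ≃ₐ[k] k') (p : k[X]) : Prop :=
  (∀ x : k', aeval x p = 0 → σ (σ (σ x)) = x) ∧ ∃ x : k', aeval x p = 0 ∧ σ x ≠ x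

/-- The automorphism `σ` fixes the roots of `p`. -/
def FixesRoots (σ : k' ≃ₐ[k] k') (p : k[X]) : Prop := ∀ x : k', aeval x p = 0 → σ x = x

variable {ι : Type} (e : ι → k[X]) {N : Type} [AddCommGroup N] [Module ℤ_[2] N]
  (ν : (k' ≃ₐ[k] k') →* Module.End ℤ_[2] N)

/-- The automorphism `σ` acts trivially on `N / 2 N`. -/
def IsTrivialModTwo (σ : k' ≃ₐ[k] k') : Prop := ∀ y, ∃ z, ν σ y - y = (2 : ℤ_[2]) • z

/-- The degrees of the polynomials `e i` are odd and at least `5`, all the permutations of the roots of each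
of them occur, and for each `i` some automorphism has order `3` on the roots of `e i`, fixes the roots of the
other `e j` and acts trivially on `N / 2 N`. -/
structure AreIndependent : Prop where
  odd : ∀ i, Odd (e i).natDegree
  five_le : ∀ i, 5 ≤ (e i).natDegree
  full : ∀ i, HasAllPermutations k' (e i)
  order : ∀ i, ∃ σ : k' ≃ₐ[k] k', HasOrderThree σ (e i) ∧ (∀ j, j ≠ i → FixesRoots σ (e j)) ∧
    IsTrivialModTwo ν σ

end roots

section gen

variable {K F Ω : Type} [Field K] [Field F] [Field Ω] [Algebra K F] [Algebra F Ω] [Algebra K Ω]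
  [IsScalarTower K F Ω] (f : K[X])

/-- The sequences of cochains of `Gal(Ω / F)` with values in `J(Ω)`. -/
abbrev Cochain (F Ω : Type) [Field F] [Field Ω] [Algebra K Ω] [Algebra F Ω] (f : K[X]) : Type :=
  ℕ → (Ω ≃ₐ[F] Ω) → Jac 2 f Ω

/-- `c` is the coboundary of an element `R` of the Tate module `T_2 J`. -/
def IsTateCoboundary (c : Cochain F Ω f) : Prop :=
  ∃ R : ℕ → Jac 2 f Ω, IsTM 2 2 f R ∧ ∀ n, IsCobOf 2 f (c n) (R n)

/-- The map `κ` identifies with `M` the group of the classes of the cocycles with the property `P`: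
it is additive and surjective on these cocycles, and `κ c = 0` if and only if `c` is the coboundary of
an element of the Tate module. -/
structure IsClassMap (P : Cochain F Ω f → Prop) (M : Type) [AddCommGroup M]
    (κ : Cochain F Ω f → M) : Prop where
  surj : ∀ m, ∃ c, P c ∧ κ c = m
  add : ∀ c d, P c → P d → κ (c + d) = κ c + κ d
  zero : ∀ c, P c → (κ c = 0 ↔ IsTateCoboundary f c)

/-- `d` is the transform of the cochain `c` by the automorphism `T` of `Ω` over `K`:
`d (σ) = T (c (σ'))`, where `σ' = T⁻¹ σ T`. -/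
def IsTransform (T : Ω ≃ₐ[K] Ω) (c d : Cochain F Ω f) : Prop :=
  ∀ n (σ σ' : Ω ≃ₐ[F] Ω), (∀ x, T (σ' x) = σ (T x)) → d n σ = jm 2 f (ak T) (c n σ')

/-- The endomorphism `φ` of `M` is induced by the automorphism `T` of `Ω` over `K`. -/
def IsInduced (P : Cochain F Ω f → Prop) {M : Type} (κ : Cochain F Ω f → M) (T : Ω ≃ₐ[K] Ω)
    (φ : M → M) : Prop :=
  ∀ c d, P c → IsTransform f T c d → P d ∧ κ d = φ (κ c)

end gen

section point

/-- The ideal of the divisor `u(x) = 0`, `y = v(x)` in the coordinate ring of the affine curve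
`y ^ 2 = f(x)`. -/
noncomputable def divIdeal {K : Type} [Field K] (f u v : K[X]) : Ideal (CoordRing 2 f) :=
  Ideal.span {ofPoly 2 f u, wfun 2 f - ofPoly 2 f v}

/-- The ideal `I` of `R` is an invertible module, and `P` is its class in the Picard group. -/
def IsIdealClass {R : Type} [CommRing R] (P : Additive (CommRing.Pic R)) (I : Ideal R) : Prop :=
  ∃ _ : Module.Invertible R I, P = Additive.ofMul (CommRing.Pic.mk R I)

/-- The element `P` of `J(K) = Pic(K[x, y] / (y ^ 2 - f(x)))` is the class of the ideal of the divisor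
`u(x) = 0`, `y = v(x)`. -/
def IsDivisor {K : Type} [Field K] (f u v : K[X]) (P : Jac 2 f K) : Prop :=
  IsIdealClass (R := CoordRing 2 (f.map (algebraMap K K))) P
    (divIdeal (f.map (algebraMap K K)) u v)

end point

section lin

variable {M : Type} [AddCommGroup M] [Module ℤ_[2] M]

/-- The quotient of `M` by the submodule generated by `D`. -/
abbrev Quot (D : M) : Type := M ⧸ Submodule.span ℤ_[2] {D}

/-- `ψ` is the endomorphism of the quotient induced by `φ`. -/
def IsQuotient (D : M) (φ : M →ₗ[ℤ_[2]] M) (ψ : Quot D →ₗ[ℤ_[2]] Quot D) : Prop :=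
  ∀ m : M, ψ (Submodule.Quotient.mk m) = Submodule.Quotient.mk (φ m)

end lin

section sel

variable {K F : Type} [Field K] [Field F] [Algebra K F] (B : Type) [CommRing B] [IsDedekindDomain B]
  [Algebra B F] [IsFractionRing B F] (f : K[X])

/-- The restriction of the cochain `c` to the completion of `F` at every maximal ideal of the Dedekind
domain `B` with field of fractions `F` is a coboundary. -/
def IsSelmer (c : (Sep F ≃ₐ[F] Sep F) → Jac 2 f (Sep F)) : Prop :=
  ∀ v : HeightOneSpectrum B, LocTriv 2 f (Comp B F v) (Sep (Comp B F v)) c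

/-- `c` is a continuous cocycle of `Gal(Sep F / F)` with values in the Tate module `T_2 J` which is
locally trivial at all the maximal ideals of the Dedekind domain `B` with field of fractions `F`; its
component with values in `J[2 ^ n]` is `c n`. -/
def IsSelmerCocycle (c : Cochain F (Sep F) f) : Prop :=
  IsTC 2 2 f c ∧ ∀ n, IsSelmer B f (c n)

/-- The element `D` of the module of the classes is the class of the element `P₀` of `J(K)`: it is the class
of a cocycle `c` with `c n σ = σ R - R` and `2 ^ n R = P₀`. -/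
def IsClassOf {M : Type} [AddCommGroup M] (κ : Cochain F (Sep F) f → M) (P₀ : Jac 2 f K) (D : M) :
    Prop :=
  ∃ c : Cochain F (Sep F) f, IsSelmerCocycle B f c ∧ κ c = D ∧
    ∀ n, ∃ R : Jac 2 f (Sep F), 2 ^ n • R = jm 2 f (incl K K (Sep F)) P₀ ∧ IsCobOf 2 f (c n) R

/-- The constants of `Sep F`. -/
noncomputable def const {k' : Type} [Field k'] [Algebra k'[X] F] (x : k') : Sep F :=
  algebraMap F (Sep F) (algebraMap k'[X] F (C x))

/-- The automorphism `σ` of `k'` over `k` acts on the quotient of the module `M` of the classes by the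
submodule generated by `D` as `ψ`: some automorphism of `Sep F` over `K` which extends `σ` induces an
endomorphism `φ` of `M`, and `φ` induces `ψ`. -/
def ActsAs {k k' : Type} [Field k] [Field k'] [Algebra k k'] [Algebra k'[X] F] {M : Type}
    [AddCommGroup M] [Module ℤ_[2] M] (κ : Cochain F (Sep F) f → M) (D : M) (σ : k' ≃ₐ[k] k')
    (ψ : Quot D →ₗ[ℤ_[2]] Quot D) : Prop :=
  ∃ (T : Sep F ≃ₐ[K] Sep F) (φ : M →ₗ[ℤ_[2]] M),
    (∀ x : k', T (const (F := F) x) = const (F := F) (σ x)) ∧
    IsInduced f (IsSelmerCocycle B f) κ T φ ∧ IsQuotient D φ ψ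

end sel

/-- `M` is the module of the classes, through `κ`, and `D` is the class of the point `x = 0`,
`y = e ^ ((n - 1) / 2)` of `J(K)`. -/
def IsModule {k K F : Type} [Field k] [Field K] [Algebra k[X] K] [Field F] [Algebra K F] (B : Type)
    [CommRing B] [IsDedekindDomain B] [Algebra B F] [IsFractionRing B F] (P : k[X][X]) (G : k[X])
    {M : Type} [AddCommGroup M] (κ : Cochain F (Sep F) (fPoly P G K) → M) (D : M) : Prop :=
  IsClassMap (fPoly P G K) (IsSelmerCocycle B (fPoly P G K)) M κ ∧
    ∃ P₀ : Jac 2 (fPoly P G K) K,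
      IsDivisor (fPoly P G K) X (C (algebraMap k[X] K (valueAt P G ^ ((P.natDegree - 1) / 2)))) P₀ ∧
      IsClassOf B (fPoly P G K) κ P₀ D

section rep

variable {G V : Type} [Group G] [AddCommGroup V] [Module ℤ_[2] V] (A : G → (V →ₗ[ℤ_[2]] V) → Prop)
  (β : V → V → ℤ_[2])

/-- `β` is a symmetric bilinear form different from zero on `V` which is invariant under the action; `A σ ψ`
means that `σ` in the group `G` acts on `V` as `ψ`. -/
structure IsInvariantForm : Prop where
  add : ∀ x y z, β (x + y) z = β x z + β y z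
  smul : ∀ (c : ℤ_[2]) x y, β (c • x) y = c * β x y
  symm : ∀ x y, β x y = β y x
  ne : ∃ x y, β x y ≠ 0
  inv : ∀ σ ψ, A σ ψ → ∀ x y, β (ψ x) (ψ y) = β x y

/-- Some element of the image of `G` is congruent to `1` modulo `4` and different from `1`. -/
def HasInfiniteImage : Prop :=
  ∃ σ ψ, A σ ψ ∧ (∀ v, ∃ v', ψ v - v = (4 : ℤ_[2]) • v') ∧ ∃ v, ψ v ≠ v

/-- Each submodule of `V` which is stable under `G` is zero or contains `2 ^ r V` for some `r`. -/
def IsIrreducible : Prop :=
  ∀ U : Submodule ℤ_[2] V, (∀ σ ψ, A σ ψ → ∀ v ∈ U, ψ v ∈ U) →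
    U = ⊥ ∨ ∃ r : ℕ, ∀ v : V, (2 : ℤ_[2]) ^ r • v ∈ U

end rep

section image

variable {G ι : Type} [Group G] {V : ι → Type} [∀ i, AddCommGroup (V i)] [∀ i, Module ℤ_[2] (V i)]
  (A : ∀ i, G → (V i →ₗ[ℤ_[2]] V i) → Prop) {N : Type} [AddCommGroup N] [Module ℤ_[2] N]
  (ν : G →* Module.End ℤ_[2] N) (H : Set G) (α : ∀ i, V i ≃ₗ[ℤ_[2]] V i)

/-- For all `n` some element of `H` acts as `α i` on `V i` modulo `2 ^ n`, for all `i`, and acts trivially on
`N` modulo `2 ^ n`. -/
def IsApproximated : Prop :=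
  ∀ n : ℕ, ∃ σ ∈ H, (∀ i, ∃ ψ, A i σ ψ ∧ ∀ v, ∃ v', ψ v - α i v = (2 : ℤ_[2]) ^ n • v') ∧
    ∀ y, ∃ z, ν σ y - y = (2 : ℤ_[2]) ^ n • z

/-- The `H`-equivariant multilinear maps from products of the modules `V i` to `N` are invariant under the
automorphisms `α i`. -/
def FixesTensors : Prop :=
  ∀ (n : ℕ) (c : Fin n → ι) (Φ : MultilinearMap ℤ_[2] (fun s => V (c s)) N),
    (∀ σ ∈ H, ∀ ψ : ∀ i, V i →ₗ[ℤ_[2]] V i, (∀ i, A i σ (ψ i)) →
      ∀ x, Φ (fun s => ψ (c s) (x s)) = ν σ (Φ x)) →
    ∀ x, Φ (fun s => α (c s) (x s)) = Φ x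

/-- All the families of automorphisms `α i` of `(V i, β i)` which are congruent to `1` modulo some power of `2`
are approximated by elements of `H` which act trivially on `N`, and fix the tensors. -/
def HasOpenImage (β : ∀ i, V i → V i → ℤ_[2]) : Prop :=
  ∃ j : ℕ, ∀ α : ∀ i, V i ≃ₗ[ℤ_[2]] V i, (∀ i x y, β i (α i x) (α i y) = β i x y) →
    (∀ i v, ∃ v', α i v - v = (2 : ℤ_[2]) ^ j • v') → IsApproximated A ν H α ∧ FixesTensors A ν H α

end image

section tower

variable {k k' : Type} [Field k] [Field k'] [Algebra k k']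

/-- The extension `E` of `k` in `k'` is reached from `k` by finitely many steps, each of which is a finite
extension or an extension inside the maximal abelian extension. -/
inductive IsTower : IntermediateField k k' → Prop
  | base : IsTower ⊥
  | finite (E E' : IntermediateField k k') : FiniteDimensional k E' → IsTower E → IsTower (E ⊔ E')
  | abelian (E E' : IntermediateField k k') :
      (∀ σ τ : k' ≃ₐ[k] k', σ ∈ E.fixingSubgroup → τ ∈ E.fixingSubgroup →
        ∀ x ∈ E', σ (τ x) = τ (σ x)) → IsTower E → IsTower E'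

end tower

/-- The modules `M i` of the classes are free of finite rank, the quotients `V i = M i / ℤ_2 D i` are free of
rank `0` or `deg (e i) - 1`, `Gal(k' / k)` acts on them, the actions are irreducible, and they have the
property `R`. -/
def Concl {k k' K F ι : Type} [Field k] [Field k'] [Algebra k k'] [Field K] [Algebra k[X] K] [Field F]
    [Algebra K F] [Algebra k'[X] F] [IsFractionRing k'[X] F] (P : ι → k[X][X]) (G : ι → k[X])
    (R : ∀ (V : ι → Type) [∀ i, AddCommGroup (V i)] [∀ i, Module ℤ_[2] (V i)],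
      (∀ i, (k' ≃ₐ[k] k') → (V i →ₗ[ℤ_[2]] V i) → Prop) → Prop) : Prop :=
  ∃ (M : ι → Type) (_ : ∀ i, AddCommGroup (M i)) (_ : ∀ i, Module ℤ_[2] (M i))
    (_ : ∀ i, Module.Finite ℤ_[2] (M i)) (_ : ∀ i, Module.Free ℤ_[2] (M i))
    (κ : ∀ i, Cochain F (Sep F) (fPoly (P i) (G i) K) → M i) (D : ∀ i, M i),
    (∀ i, IsModule k'[X] (P i) (G i) (κ i) (D i)) ∧
    (∀ i, Module.Free ℤ_[2] (Quot (D i))) ∧
    (∀ i, Module.finrank ℤ_[2] (Quot (D i)) = 0 ∨
      Module.finrank ℤ_[2] (Quot (D i)) = (valueAt (P i) (G i)).natDegree - 1) ∧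
    (∀ i, ∀ σ : k' ≃ₐ[k] k', ∃ ψ, ActsAs k'[X] (fPoly (P i) (G i) K) (κ i) (D i) σ ψ) ∧
    (∀ i, IsIrreducible (ActsAs (k := k) (k' := k') k'[X] (fPoly (P i) (G i) K) (κ i) (D i))) ∧
    R (fun i => Quot (D i)) fun i => ActsAs k'[X] (fPoly (P i) (G i) K) (κ i) (D i)

/-- (1) The theorem on the joint image. -/
def JointImage : Prop :=
  ∀ (k k' K F ι : Type) [Field k] [Field k'] [Algebra k k'] [IsSepClosure k k'] [Field K]
    [Algebra k[X] K] [IsFractionRing k[X] K] [Field F] [Algebra k'[X] F] [IsFractionRing k'[X] F]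
    [Algebra K F] [Fintype ι] (P : ι → k[X][X]) (G : ι → k[X]) (N : Type) [AddCommGroup N]
    [Module ℤ_[2] N] [Module.Finite ℤ_[2] N] [Module.Free ℤ_[2] N]
    (ν : (k' ≃ₐ[k] k') →* Module.End ℤ_[2] N),
    (∀ p : k[X], algebraMap K F (algebraMap k[X] K p) =
      algebraMap k'[X] F (p.map (algebraMap k k'))) →
    (∀ i, IsPair k' (P i) (G i)) → AreIndependent (fun i => valueAt (P i) (G i)) ν →
      Concl (K := K) (F := F) P G fun V _ _ act =>
        ∀ β : ∀ i, V i → V i → ℤ_[2], (∀ i, IsInvariantForm (act i) (β i)) →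
          (∀ i, HasInfiniteImage (act i)) →
          ∀ E : IntermediateField k k', IsTower E → HasOpenImage act ν E.fixingSubgroup β

/-- The degree of `G` is large compared to `P`. -/
def IsLargeDegree {k : Type} [Field k] (P : k[X][X]) (G : k[X]) : Prop :=
  ∀ i < P.natDegree, (P.coeff i).natDegree < (P.natDegree - i) * G.natDegree

/-- The section `G(t) + v₁ t + v₀`. -/
noncomputable def section2 {k : Type} [Field k] (G : k[X]) (v : Fin 2 → ℤ) : k[X] :=
  G + C ((v 1 : ℤ) : k) * X + C ((v 0 : ℤ) : k)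

/-- The family of polynomials `e i` together with one further polynomial. -/
def extendFamily {k ι : Type} [Field k] (e : ι → k[X]) (p : k[X]) : Option ι → k[X] :=
  fun o => o.elim p e

/-- (2) For a number field `k` and a family which satisfies the conditions in (1), the same holds for the
family enlarged by the section `G + v₁ t + v₀`, except for a set of pairs `(v₀, v₁)` of density zero. -/
def AlmostAllSections : Prop :=
  ∀ (k k' ι : Type) [Field k] [NumberField k] [Field k'] [Algebra k k'] [IsSepClosure k k']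
    [Fintype ι] (e : ι → k[X]) (N : Type) [AddCommGroup N] [Module ℤ_[2] N]
    (ν : (k' ≃ₐ[k] k') →* Module.End ℤ_[2] N) (E₀ : IntermediateField k k')
    [FiniteDimensional k E₀] (P : k[X][X]) (G : k[X]),
    AreIndependent e ν → (∀ σ ∈ E₀.fixingSubgroup, IsTrivialModTwo ν σ) → IsCurve k' P →
    Odd G.natDegree → 3 ≤ G.natDegree → IsLargeDegree P G →
    Tendsto (fun H : ℕ => (({v : Fin 2 → ℤ | (∀ i, |v i| ≤ (H : ℤ)) ∧
        ¬ (IsPair k' P (section2 G v) ∧
          AreIndependent (extendFamily e (valueAt P (section2 G v))) ν)}.ncard : ℕ) : ℝ) /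
        (2 * (H : ℝ) + 1) ^ 2) atTop (𝓝 0)

/-- (3) The curves `a(w) + t = 0`. -/
def Lines : Prop :=
  ∀ (k k' : Type) [Field k] [CharZero k] [Field k'] [Algebra k k'] (a : k[X]), a.Monic →
    Odd a.natDegree → 3 ≤ a.natDegree → IsCurve k' (a.map C + C X) ∧
      ∀ G : k[X], 0 < G.natDegree → IsLargeDegree (a.map C + C X) G

open Pool.Agent.Q45.GM (SelT clsOf clsOf_surj clsOf_add clsOf_zero rho rho_cls rho_mul rho_one
  isGeom_rat cs cs_apply rho_congr)
open Pool.Agent.Q45.EM

section conv

variable {K F : Type} [Field K] [Field F] [Algebra K F] {B : Type} [CommRing B] [IsDedekindDomain B]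
  [Algebra B F] [IsFractionRing B F] {f : K[X]}

theorem toTC {c : Cochain F (Sep F) f} (h : IsTC 2 2 f c) : Pool.Agent.Y160.SQ.IsTC 2 2 f c :=
  ⟨fun n => ⟨(h.coc n).lc, (h.coc n).mul⟩, h.zero, h.step⟩

theorem ofTC {c : Cochain F (Sep F) f} (h : Pool.Agent.Y160.SQ.IsTC 2 2 f c) : IsTC 2 2 f c :=
  ⟨fun n => ⟨(h.coc n).lc, (h.coc n).mul⟩, h.zero, h.step⟩

/-- The classes of the cocycles. -/
theorem classMap : IsClassMap f (IsSelmerCocycle B f) (SelT (F := F) 2 B f 2) (clsOf B f) where
  surj m := by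
    obtain ⟨c, ⟨h1, h2⟩, h3⟩ := clsOf_surj B f m
    exact ⟨c, ⟨ofTC h1, h2⟩, h3⟩
  add c d hc hd := clsOf_add B f (toTC hc.1) hc.2 (toTC hd.1) hd.2
  zero c hc := by
    refine (clsOf_zero B f (toTC hc.1) hc.2).trans ⟨?_, ?_⟩
    · rintro ⟨R, hR, h⟩
      exact ⟨R, ⟨hR.zero, hR.step⟩, h⟩
    · rintro ⟨R, hR, h⟩
      exact ⟨R, ⟨hR.zero, hR.step⟩, h⟩

end conv

section acts

variable {k k' K F : Type} [Field k] [Field k'] [Algebra k k'] [IsSepClosed k']
  [Algebra.IsSeparable k k'] [Field K] [Algebra k[X] K] [Field F] [Algebra k'[X] F] [Algebra K F]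

theorem induced_iff [IsFractionRing k'[X] F] (hF' : Pool.Agent.Q45.TW.IsGeom k k' K F) (f : K[X])
    (T : Sep F ≃ₐ[K] Sep F)
    (φ : SelT (F := F) 2 k'[X] f 2 →ₗ[ℤ_[2]] SelT (F := F) 2 k'[X] f 2) :
    IsInduced f (IsSelmerCocycle k'[X] f) (clsOf k'[X] f) T φ ↔ φ = rho k'[X] hF' f T := by
  constructor
  · intro h
    refine LinearMap.ext fun m => ?_
    obtain ⟨c, ⟨hc, hcs⟩, rfl⟩ := clsOf_surj k'[X] f m
    have hcj := Pool.Agent.Q45.GM.lf_T k'[X] hF' f T
    have hd : IsTransform f T c (fun n σ => jm 2 f (ak T)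
        (c n ((Pool.Agent.Q45.GM.lf k'[X] hF' f T).conj σ))) := by
      intro n σ σ' hσ
      have h5 : (Pool.Agent.Q45.GM.lf k'[X] hF' f T).conj σ = σ' := by
        refine AlgEquiv.ext fun x => T.injective ?_
        rw [hσ]
        have h6 := (Pool.Agent.Q45.GM.lf k'[X] hF' f T).T_conj σ x
        rwa [hcj] at h6
      have h8 : ∀ ρ : Sep F ≃ₐ[F] Sep F, ρ = σ' →
          jm 2 f (ak T) (c n ρ) = jm 2 f (ak T) (c n σ') := by
        rintro ρ rfl
        rfl
      exact h8 _ h5
    have h7 := (h c _ ⟨ofTC hc, hcs⟩ hd).2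
    rw [← h7]
    exact (rho_cls k'[X] hF' f T hc hcs hd).2
  · rintro rfl c d hc hd
    obtain ⟨⟨h4, h5⟩, h6⟩ := rho_cls k'[X] hF' f T (toTC hc.1) hc.2 hd
    exact ⟨⟨ofTC h4, h5⟩, h6⟩

end acts

section pair

variable {k k' : Type} [Field k] [Field k'] [Algebra k k'] {P : k[X][X]} {G : k[X]}

theorem IsPair.dm (h : IsPair k' P G) : Dm k' P G where
  two := h.curve.two
  monic := h.curve.monic
  odd := h.curve.odd
  three := by have := h.curve.three_le; omega
  der := h.curve.deriv_ne
  smooth := h.curve.smooth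
  sep := h.separable
  br := by
    obtain ⟨φ⟩ := h.curve.line
    exact isBr_of_line φ
  unr := unr_of_coprime h.curve.monic (by have := h.curve.three_le; omega) h.coprime

section mod

variable {K F : Type} [Field K] [Algebra k[X] K] [Field F] [Algebra k'[X] F] [IsFractionRing k'[X] F]
  [Algebra K F]

theorem isModule_of {D : SelT (F := F) 2 k'[X] (fPoly P G K) 2} (h : PtClass P G D) :
    IsModule k'[X] P G (clsOf k'[X] (fPoly P G K)) D := by
  obtain ⟨P₀, R, h1, h2, h3, h4, h5, h6⟩ := h
  exact ⟨classMap, P₀, h1, cD (fPoly P G K) R, ⟨ofTC h4, h5⟩, h6.symm, fun n =>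
    ⟨R n, (halves R h3 n).trans h2, fun σ => rfl⟩⟩

end mod

variable {K F : Type} [Field K] [Algebra k[X] K] [IsFractionRing k[X] K] [Field F]
  [Algebra k'[X] F] [IsFractionRing k'[X] F] [Algebra K F] [IsSepClosed k'] [Algebra.IsSeparable k k']

/-- The reduction modulo `2` of the module of the classes. -/
theorem core (hP : IsPair k' P G) (hcomp : ∀ p : k[X], algebraMap K F (algebraMap k[X] K p) =
      algebraMap k'[X] F (p.map (algebraMap k k'))) (hF : Pool.Agent.Q45.TW.IsGeom k k' K F) :
    ∃ (_ : Module.Finite ℤ_[2] (SelT (F := F) 2 k'[X] (fPoly P G K) 2))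
      (_ : Module.Free ℤ_[2] (SelT (F := F) 2 k'[X] (fPoly P G K) 2))
      (κ : SelT (F := F) 2 k'[X] (fPoly P G K) 2 →+ ((valueAt P G).rootSet k' → ZMod 2))
      (D : SelT (F := F) 2 k'[X] (fPoly P G K) 2), Red κ D ∧ PtClass P G D ∧
      (∀ T, rho k'[X] hF (fPoly P G K) T D = D) ∧
      ∀ (T : Sep F ≃ₐ[K] Sep F) (τ : k' ≃ₐ[k] k'), (∀ x, T (cs k' F x) = cs k' F (τ x)) →
        ∀ π : Equiv.Perm ((valueAt P G).rootSet k'),
          (∀ r, ((π r : (valueAt P G).rootSet k') : k') = τ r) →
          Thr κ (rho k'[X] hF (fPoly P G K) T) π := em_core hP.dm hcomp hF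

end pair

/-- The form as a bilinear map. -/
theorem exists_form {G V : Type} [Group G] [AddCommGroup V] [Module ℤ_[2] V]
    {A : G → (V →ₗ[ℤ_[2]] V) → Prop} {β : V → V → ℤ_[2]} (h : IsInvariantForm A β) :
    ∃ β' : V →ₗ[ℤ_[2]] V →ₗ[ℤ_[2]] ℤ_[2], ∀ x y, β' x y = β x y :=
  ⟨LinearMap.mk₂ ℤ_[2] β h.add h.smul (fun x y z => by rw [h.symm, h.add, h.symm y, h.symm z])
    (fun c x y => by rw [h.symm, h.smul, h.symm y]; rfl), fun x y => rfl⟩

/-- The towers give chains of subgroups. -/
theorem tower_chain {k k' : Type} [Field k] [Field k'] [Algebra k k'] [IsSepClosed k']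
    [Algebra.IsSeparable k k'] {E : IntermediateField k k'} (h : IsTower E) :
    Pool.Agent.Q45.OI.Chain (E.fixingSubgroup) := by
  induction h with
  | base =>
    rw [IntermediateField.fixingSubgroup_bot]
    exact Pool.Agent.Q45.OI.Chain.top
  | finite E E' hfin _ ih =>
    haveI : FiniteDimensional k E' := hfin
    obtain ⟨N, hN, hpow⟩ := Pool.Agent.Q45.OI.exists_exp_gal E'
    refine Pool.Agent.Q45.OI.Chain.pow N hN (fun σ hσ => ?_) ih
    rw [IntermediateField.fixingSubgroup_sup]
    exact ⟨pow_mem hσ N, hpow σ⟩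
  | abelian E E' hab _ ih =>
    refine Pool.Agent.Q45.OI.Chain.comm (fun σ hσ τ hτ => ?_) ih
    rw [IntermediateField.mem_fixingSubgroup_iff]
    intro x hx
    have h1 := hab σ⁻¹ τ⁻¹ (inv_mem hσ) (inv_mem hτ) x hx
    have h2 : (σ * τ * σ⁻¹ * τ⁻¹) x = σ (τ (σ⁻¹ (τ⁻¹ x))) := rfl
    rw [h2, h1]
    have h3 : ∀ (ρ : k' ≃ₐ[k] k') (y : k'), ρ (ρ⁻¹ y) = y := fun ρ y => by
      rw [← AlgEquiv.mul_apply, mul_inv_cancel]
      rfl
    rw [h3, h3]

section abs

variable {k k' ι : Type} [Field k] [Field k'] [Algebra k k'] [IsSepClosed k']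
  [Algebra.IsSeparable k k'] [Fintype ι] {R M : ι → Type} [∀ i, Fintype (R i)]
  [∀ i, AddCommGroup (M i)] [∀ i, Module ℤ_[2] (M i)] [∀ i, Module.Free ℤ_[2] (M i)]
  [∀ i, Module.Finite ℤ_[2] (M i)] {N : Type} [AddCommGroup N] [Module ℤ_[2] N]
  [Module.Free ℤ_[2] N] [Module.Finite ℤ_[2] N]

/-- The open image, for abstract modules. -/
theorem open_of (κ : ∀ i, M i →+ (R i → ZMod 2)) (D : ∀ i, M i)
    (ρ : ∀ i, (k' ≃ₐ[k] k') →* Module.End ℤ_[2] (M i))
    (π : ∀ i, (k' ≃ₐ[k] k') →* Equiv.Perm (R i)) (ν : (k' ≃ₐ[k] k') →* Module.End ℤ_[2] N)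
    (hred : ∀ i, Red (κ i) (D i)) (hD : ∀ i g, ρ i g (D i) = D i)
    (hthr : ∀ i g, Thr (κ i) (ρ i g) (π i g)) (hodd : ∀ i, Odd (Fintype.card (R i)))
    (h5 : ∀ i, 5 ≤ Fintype.card (R i)) (hfull : ∀ i, Function.Surjective (π i))
    (hind : ∀ i, ∃ g, π i g ^ 3 = 1 ∧ π i g ≠ 1 ∧ (∀ j, j ≠ i → π j g = 1) ∧
      ∀ y, ∃ z, ν g y - y = (2 : ℤ_[2]) • z)
    (act : ∀ i, (k' ≃ₐ[k] k') → (Quot (D i) →ₗ[ℤ_[2]] Quot (D i)) → Prop)
    (hiff : ∀ i σ ψ, act i σ ψ ↔ ψ = quoRep (ρ i) (hD i) σ)
    (β : ∀ i, Quot (D i) → Quot (D i) → ℤ_[2]) (hβ : ∀ i, IsInvariantForm (act i) (β i))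
    (hinf : ∀ i, HasInfiniteImage (act i)) (E : IntermediateField k k') (hE : IsTower E) :
    HasOpenImage act ν E.fixingSubgroup β := by
  choose β' hβ' using fun i => exists_form (hβ i)
  obtain ⟨j, hj⟩ := opn_joint κ D ρ π ν hred hD hthr hodd h5 hfull hind β' (fun i h0 => by
      obtain ⟨x, y, hxy⟩ := (hβ i).ne
      apply hxy
      rw [← hβ', h0]
      rfl) (fun i x y => by rw [hβ', hβ', (hβ i).symm]) (fun i σ x y => by
      rw [hβ', hβ']
      exact (hβ i).inv σ _ ((hiff i σ _).2 rfl) x y) (fun i => by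
      obtain ⟨σ, φ, hφ, h4, m, hm⟩ := hinf i
      rw [(hiff i σ φ).1 hφ] at h4 hm
      refine ⟨σ, h4, fun h5 => hm ?_⟩
      rw [h5]
      rfl) (tower_chain hE)
  refine ⟨j, fun α hα hα1 => ?_⟩
  have happ := hj α (fun i x y => by rw [hβ', hβ']; exact hα i x y) hα1
  constructor
  · intro n
    obtain ⟨σ, hσ, h5, h6⟩ := happ n
    exact ⟨σ, hσ, fun i => ⟨quoRep (ρ i) (hD i) σ, (hiff i σ _).2 rfl, h5 i⟩, h6⟩
  · intro n c Φ hΦ x
    refine Pool.Agent.Q45.OI.fix_of_approx c Φ (fun i => α i) x fun m => ?_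
    obtain ⟨σ, hσ, h5, h6⟩ := happ m
    exact ⟨fun i => quoRep (ρ i) (hD i) σ, ν σ, h5, h6,
      hΦ σ hσ (fun i => quoRep (ρ i) (hD i) σ) (fun i => (hiff i σ _).2 rfl) x⟩

end abs

/-- The rank and the irreducibility, for one abstract module. -/
theorem irr_one {g R M : Type} [Group g] [Fintype R] [AddCommGroup M] [Module ℤ_[2] M]
    [Module.Free ℤ_[2] M] [Module.Finite ℤ_[2] M] (κ : M →+ (R → ZMod 2)) (D : M)
    (ρ : g →* Module.End ℤ_[2] M) (π : g →* Equiv.Perm R)
    (hred : Red κ D) (hD : ∀ g, ρ g D = D)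
    (hthr : ∀ g, Thr κ (ρ g) (π g)) (hodd : Odd (Fintype.card R))
    (hfull : Function.Surjective π) {d : ℕ} (hd : Fintype.card R = d)
    (act : g → (Quot D →ₗ[ℤ_[2]] Quot D) → Prop)
    (hiff : ∀ σ ψ, act σ ψ ↔ ψ = quoRep ρ hD σ) :
    Module.Free ℤ_[2] (Quot D) ∧ (Module.finrank ℤ_[2] (Quot D) = 0 ∨
      Module.finrank ℤ_[2] (Quot D) = d - 1) ∧
    (∀ σ : g, ∃ ψ, act σ ψ) ∧ IsIrreducible act := by
  haveI : Nonempty R := Fintype.card_pos_iff.1 hodd.pos
  have hirr := opn_irr κ D ρ π hred hD hthr hodd hfull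
  refine ⟨Pool.Agent.Q237.EM.QCH.free_quot hred, ?_,
    fun σ => ⟨_, (hiff σ _).2 rfl⟩, fun U hU => hirr.2 U fun σ v hv =>
      hU σ _ ((hiff σ _).2 rfl) v hv⟩
  have h1 := hirr.1
  rw [hd] at h1
  exact h1

section one

variable {k k' K F : Type} [Field k] [Field k'] [Algebra k k'] [IsSepClosed k']
  [Algebra.IsSeparable k k'] [Field K] [Algebra k[X] K] [Field F] [Algebra k'[X] F]
  [IsFractionRing k'[X] F] [Algebra K F] (hF' : Pool.Agent.Q45.TW.IsGeom k k' K F) (f : K[X])

/-- The representation of `Gal(k' / k)`. -/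
noncomputable def galRep (ext : (k' ≃ₐ[k] k') → (Sep F ≃ₐ[K] Sep F))
    (hext : ∀ σ x, ext σ (cs k' F x) = cs k' F (σ x)) :
    (k' ≃ₐ[k] k') →* Module.End ℤ_[2] (SelT (F := F) 2 k'[X] f 2) where
  toFun σ := rho k'[X] hF' f (ext σ)
  map_one' := LinearMap.ext fun m => by
    rw [rho_congr k'[X] hF' f (ext 1) 1 (fun x => by rw [hext]; rfl) m]
    exact rho_one k'[X] hF' f m
  map_mul' σ τ := LinearMap.ext fun m => by
    show rho k'[X] hF' f (ext (σ * τ)) m = rho k'[X] hF' f (ext σ) (rho k'[X] hF' f (ext τ) m)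
    rw [← rho_mul]
    refine rho_congr k'[X] hF' f (ext (σ * τ)) (ext σ * ext τ) (fun x => ?_) m
    have h1 : (ext σ * ext τ) (cs k' F x) = ext σ (ext τ (cs k' F x)) := rfl
    rw [h1, hext, hext, hext]
    rfl

theorem acts_quo (ext : (k' ≃ₐ[k] k') → (Sep F ≃ₐ[K] Sep F))
    (hext : ∀ σ x, ext σ (cs k' F x) = cs k' F (σ x)) {D : SelT (F := F) 2 k'[X] f 2}
    (hD : ∀ σ, galRep hF' f ext hext σ D = D) (σ : k' ≃ₐ[k] k') (ψ : Quot D →ₗ[ℤ_[2]] Quot D) :
    ActsAs k'[X] f (clsOf k'[X] f) D σ ψ ↔ ψ = quoRep (galRep hF' f ext hext) hD σ := by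
  constructor
  · rintro ⟨T, φ, hT, hind, hφ⟩
    rw [(induced_iff hF' f T φ).1 hind] at hφ
    refine LinearMap.ext fun x => ?_
    obtain ⟨m, rfl⟩ := Submodule.Quotient.mk_surjective _ x
    rw [hφ, quoRep_mk]
    have h1 : rho k'[X] hF' f T m = galRep hF' f ext hext σ m :=
      rho_congr k'[X] hF' f T (ext σ) (fun x => by
        rw [hext]
        exact hT x) m
    rw [h1]
  · rintro rfl
    exact ⟨ext σ, galRep hF' f ext hext σ, hext σ, (induced_iff hF' f (ext σ) _).2 rfl, fun m => rfl⟩

end one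

theorem jointImage : JointImage := by
  intro k k' K F ι _ _ _ hk' _ _ _ _ _ _ _ _ P G N _ _ _ _ ν hcomp hP hA
  haveI : IsSepClosed k' := hk'.sep_closed
  haveI : Algebra.IsSeparable k k' := hk'.separable
  have hF' := isGeom_rat (K := K) (F := F) hcomp
  choose i1 i2 κ D hred hpt hD hact using fun i => core (K := K) (F := F) (hP i) hcomp hF'
  -- the extension of the automorphisms
  choose ext hext using fun σ : k' ≃ₐ[k] k' =>
    Pool.Agent.Q45.OI.exists_ext (K := K) (F := F) hcomp σ
  have hrD : ∀ i σ, galRep hF' (fPoly (P i) (G i) K) ext hext σ (D i) = D i :=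
    fun i σ => hD i (ext σ)
  have hthr : ∀ i σ, Thr (κ i) (galRep hF' (fPoly (P i) (G i) K) ext hext σ)
      (permRoots (valueAt (P i) (G i)) σ) := fun i σ =>
    hact i (ext σ) σ (hext σ) _ fun r => rfl
  have hcard : ∀ i, Fintype.card ((valueAt (P i) (G i)).rootSet k') =
      (valueAt (P i) (G i)).natDegree := fun i =>
    card_rootSet_eq_natDegree (hP i).separable (IsSepClosed.splits_codomain _ (hP i).separable)
  have hodd : ∀ i, Odd (Fintype.card ((valueAt (P i) (G i)).rootSet k')) := fun i => by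
    rw [hcard]
    exact hA.odd i
  have hfull : ∀ i, Function.Surjective (permRoots (k := k) (k' := k') (valueAt (P i) (G i))) := by
    intro i π
    obtain ⟨σ, hσ⟩ := hA.full i π
    exact ⟨σ, Equiv.ext fun x => Subtype.ext (hσ x)⟩
  have hne0 : ∀ i, valueAt (P i) (G i) ≠ 0 := fun i => (hP i).separable.ne_zero
  have hind : ∀ i, ∃ g, permRoots (k := k) (k' := k') (valueAt (P i) (G i)) g ^ 3 = 1 ∧
      permRoots (valueAt (P i) (G i)) g ≠ 1 ∧
      (∀ j, j ≠ i → permRoots (valueAt (P j) (G j)) g = 1) ∧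
      ∀ y, ∃ z, ν g y - y = (2 : ℤ_[2]) • z := by
    intro i
    obtain ⟨σ, ⟨h1, x, hx, hx'⟩, h2, h3⟩ := hA.order i
    refine ⟨σ, Equiv.ext fun r => Subtype.ext (h1 r (mem_rootSet.1 r.2).2), fun h4 => hx' ?_,
      fun j hj => Equiv.ext fun r => Subtype.ext (h2 j hj r (mem_rootSet.1 r.2).2), h3⟩
    exact congrArg (fun g : Equiv.Perm ((valueAt (P i) (G i)).rootSet k') =>
      ((g ⟨x, (mem_rootSet_of_ne (hne0 i)).2 hx⟩ : (valueAt (P i) (G i)).rootSet k') : k')) h4
  have hiff := fun i => acts_quo hF' (fPoly (P i) (G i) K) ext hext (hrD i)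
  have hX := fun i => irr_one (κ i) (D i) (galRep hF' (fPoly (P i) (G i) K) ext hext)
    (permRoots (valueAt (P i) (G i))) (hred i) (hrD i) (hthr i) (hodd i) (hfull i) (hcard i)
    (ActsAs k'[X] (fPoly (P i) (G i) K) (clsOf k'[X] (fPoly (P i) (G i) K)) (D i)) (hiff i)
  have h5 := open_of (k := k) (k' := k') (R := fun i => (valueAt (P i) (G i)).rootSet k')
    (M := fun i => SelT (F := F) 2 k'[X] (fPoly (P i) (G i) K) 2) κ D
    (fun i => galRep hF' (fPoly (P i) (G i) K) ext hext)
    (fun i => permRoots (valueAt (P i) (G i))) ν hred hrD hthr hodd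
    (fun i => (hcard i).ge.trans' (hA.five_le i)) hfull hind
    (fun i => ActsAs k'[X] (fPoly (P i) (G i) K) (clsOf k'[X] (fPoly (P i) (G i) K)) (D i))
    (by
      intro i σ ψ
      exact hiff i σ ψ)
  refine ⟨fun i => SelT (F := F) 2 k'[X] (fPoly (P i) (G i) K) 2, inferInstance, inferInstance, i1, i2,
    fun i => clsOf k'[X] (fPoly (P i) (G i) K), D, ?_, ?_, ?_, ?_, ?_, ?_⟩
  · intro i
    exact isModule_of (hpt i)
  · intro i
    exact (hX i).1
  · intro i
    exact (hX i).2.1
  · intro i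
    exact (hX i).2.2.1
  · intro i
    exact (hX i).2.2.2
  · exact h5

/-- The conditions for the enlarged family. -/
theorem enlarge {k k' ι : Type} [Field k] [Field k'] [Algebra k k'] [IsSepClosed k'] {e : ι → k[X]}
    {N : Type} [AddCommGroup N] [Module ℤ_[2] N] {ν : (k' ≃ₐ[k] k') →* Module.End ℤ_[2] N}
    (hA : AreIndependent e ν) {E : IntermediateField k k'}
    (hE : ∀ i (x : k'), aeval x (e i) = 0 → x ∈ E)
    (hN : ∀ σ : k' ≃ₐ[k] k', (∀ x ∈ E, σ x = x) → IsTrivialModTwo ν σ) {p : k[X]}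
    (hsep : p.Separable) (hodd : Odd p.natDegree) (h5 : 5 ≤ p.natDegree)
    (hfull : ∀ π : Equiv.Perm (p.rootSet k'), ∃ σ : k' ≃ₐ[k] k', (∀ x ∈ E, σ x = x) ∧
      ∀ r : p.rootSet k', σ r = (π r : k')) : AreIndependent (extendFamily e p) ν := by
  have hcard : Fintype.card (p.rootSet k') = p.natDegree :=
    card_rootSet_eq_natDegree hsep (IsSepClosed.splits_codomain _ hsep)
  refine ⟨?_, ?_, ?_, ?_⟩
  · rintro (_ | i)
    · exact hodd
    · exact hA.odd i
  · rintro (_ | i)
    · exact h5
    · exact hA.five_le i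
  · rintro (_ | i)
    · intro π
      obtain ⟨σ, -, hσ⟩ := hfull π
      exact ⟨σ, hσ⟩
    · exact hA.full i
  · rintro (_ | i)
    · obtain ⟨π, h1, r, hr⟩ := exists_three (R := p.rootSet k') (by rw [hcard]; omega)
      obtain ⟨σ, hσE, hσ⟩ := hfull π
      refine ⟨σ, ⟨fun x hx => ?_, r, (mem_rootSet.1 r.2).2, fun h2 => hr (Subtype.ext ?_)⟩, ?_,
        hN σ hσE⟩
      · have hx' : x ∈ p.rootSet k' := (mem_rootSet_of_ne hsep.ne_zero).2 hx
        have h2 := hσ ⟨x, hx'⟩
        have h3 : σ x = ((π ⟨x, hx'⟩ : p.rootSet k') : k') := h2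
        rw [h3, hσ, hσ, h1]
      · rw [← hσ]
        exact h2
      · rintro (_ | j) hj x hx
        · exact absurd rfl hj
        · exact hσE x (hE j x hx)
    · obtain ⟨σ, ⟨h1, x₀, hx₀, hx₀'⟩, h2, h3⟩ := hA.order i
      obtain ⟨τ, hτE, hτ⟩ := hfull (permRoots p σ)
      have hτi : ∀ x ∈ E, τ⁻¹ x = x := by
        intro x hx
        have h4 : τ⁻¹ (τ x) = x := τ.symm_apply_apply x
        rw [hτE x hx] at h4
        exact h4
      have hroot : ∀ j (x : k'), aeval x (e j) = 0 → aeval (σ x) (e j) = 0 := by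
        intro j x hx
        have h4 : aeval (σ x) (e j) = σ (aeval x (e j)) := by
          rw [← AlgEquiv.coe_algHom, aeval_algHom_apply]
        rw [h4, hx, map_zero]
      have hmul : ∀ x, (τ⁻¹ * σ) x = τ⁻¹ (σ x) := fun x => rfl
      have hsame : ∀ j (x : k'), aeval x (e j) = 0 → (τ⁻¹ * σ) x = σ x := by
        intro j x hx
        rw [hmul]
        exact hτi _ (hE j _ (hroot j x hx))
      refine ⟨τ⁻¹ * σ, ⟨fun x hx => ?_, x₀, hx₀, ?_⟩, ?_, ?_⟩
      · have hx : aeval x (e i) = 0 := hx
        rw [hsame i x hx, hsame i _ (hroot i x hx), hsame i _ (hroot i _ (hroot i x hx))]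
        exact h1 x hx
      · have hx₀ : aeval x₀ (e i) = 0 := hx₀
        rw [hsame i x₀ hx₀]
        exact hx₀'
      · rintro (_ | j) hj x hx
        · have hx' : x ∈ p.rootSet k' := (mem_rootSet_of_ne hsep.ne_zero).2 hx
          have h4 : τ x = σ x := hτ ⟨x, hx'⟩
          rw [hmul, ← h4]
          exact τ.symm_apply_apply x
        · have hx : aeval x (e j) = 0 := hx
          rw [hsame j x hx]
          exact h2 j (fun h5 => hj (by rw [h5])) x hx
      · intro y
        obtain ⟨z, hz⟩ := h3 y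
        obtain ⟨z', hz'⟩ := hN τ⁻¹ hτi (ν σ y)
        refine ⟨z' + z, ?_⟩
        rw [smul_add, ← hz, ← hz', map_mul, Module.End.mul_apply]
        abel

theorem almostAll : AlmostAllSections := by
  intro k k' ι _ _ _ _ hk' _ e N _ _ ν E₀ _ P G hA hE₀ hC hodd h3 hdeg
  haveI : IsSepClosed k' := hk'.sep_closed
  haveI : Algebra.IsSeparable k k' := hk'.separable
  have hn1 : 1 < P.natDegree := by have := hC.three_le; omega
  obtain ⟨φ⟩ := hC.line
  have hgi : ∀ (k'' : Type) [Field k''] [Algebra k k''],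
      Irreducible (P.map (mapRingHom (algebraMap k k''))) := fun k'' _ _ =>
    irr_ext (k' := k') hC.monic (by omega) φ
  have hirr : Irreducible P := by
    have h1 := hgi k
    have h3 : mapRingHom (algebraMap k k) = RingHom.id k[X] := by
      rw [Algebra.algebraMap_self, mapRingHom_id]
    rwa [h3, Polynomial.map_id] at h1
  -- the field generated by the roots
  let S : Set k' := ⋃ i, (e i).rootSet k'
  haveI : Finite S := (Set.finite_iUnion fun i => rootSet_finite (e i) k').to_subtype
  haveI : FiniteDimensional k (IntermediateField.adjoin k S) :=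
    IntermediateField.finiteDimensional_adjoin fun x _ => Algebra.IsIntegral.isIntegral x
  let E : IntermediateField k k' := E₀ ⊔ IntermediateField.adjoin k S
  have hE : ∀ i (x : k'), aeval x (e i) = 0 → x ∈ E := by
    intro i x hx
    have h0 : e i ≠ 0 := by
      intro h0
      have := hA.five_le i
      rw [h0, natDegree_zero] at this
      omega
    have h1 : x ∈ S := Set.mem_iUnion.2 ⟨i, (mem_rootSet_of_ne h0).2 hx⟩
    exact (le_sup_right : IntermediateField.adjoin k S ≤ E)
      (IntermediateField.subset_adjoin k S h1)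
  have hN : ∀ σ : k' ≃ₐ[k] k', (∀ x ∈ E, σ x = x) → IsTrivialModTwo ν σ := by
    intro σ hσ
    refine hE₀ σ ?_
    rw [IntermediateField.mem_fixingSubgroup_iff]
    intro x hx
    exact hσ x ((le_sup_left : E₀ ≤ E) hx)
  obtain ⟨u, hu, hmd, hud⟩ := Pool.Agent.Q45.NE.ud_sec hC.monic hirr hn1 hgi (by omega) hdeg
  have hud2 := ud_ext (k' := k') hC.monic hn1 ⟨φ⟩ hC.smooth (by omega) hdeg E
  have key := Pool.Agent.Q45.HI.tendsto_of_ud (ι := Fin 2)
    (S := {v : Fin 2 → ℤ | ¬ (IsPair k' P (section2 G v) ∧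
      AreIndependent (extendFamily e (valueAt P (section2 G v))) ν)}) (fun ε hε => by
      refine Pool.Agent.Y706.UD_mono ?_ (Pool.Agent.Q45.HI.ud_union hud hud2 ε hε)
      intro v hv
      by_contra hcon
      rw [Set.mem_union, not_or] at hcon
      obtain ⟨h1, h2⟩ := hcon
      simp only [Set.mem_setOf_eq, not_not] at h1 h2
      apply hv
      have h4 : section2 G v = Pool.Agent.Q45.NE.sec G v := rfl
      have h5 : valueAt P (section2 G v) = Pool.Agent.Q45.NE.eG P (Pool.Agent.Q45.NE.sec G v) := rfl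
      obtain ⟨h6, -, h7⟩ := h1
      have h8 := (hmd v).2
      rw [natDegree_C_mul hu] at h8
      have hun : IsUnit (C u : k[X]) := (isUnit_iff_ne_zero.2 hu).map C
      have hir : Irreducible (Pool.Agent.Q45.NE.eG P (Pool.Agent.Q45.NE.sec G v)) :=
        (irreducible_isUnit_mul hun).1 h6
      refine ⟨⟨hC, ?_, ?_⟩, ?_⟩
      · rw [h5]
        exact h2.1
      · rw [h5]
        exact (hir.coprime_iff_not_dvd).2 h7
      · rw [h5]
        refine enlarge hA hE hN h2.1 ?_ ?_ h2.2
        · rw [h8]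
          exact hC.odd.mul hodd
        · rw [h8]
          calc 5 ≤ 3 * 3 := by norm_num
            _ ≤ P.natDegree * G.natDegree := Nat.mul_le_mul hC.three_le h3)
  refine key.congr fun H => ?_
  rw [Fintype.card_fin]
  rfl

theorem lines : Lines := by
  intro k k' _ _ _ _ a ha hodd h3
  have hpos : 0 < a.natDegree := by omega
  have hgs : a.map C + C X = Pool.Agent.Q45.TG.gs a := rfl
  have hdeg := Pool.Agent.Q45.TG.gs_natDegree ha hpos
  have hder : derivative a ≠ 0 := by
    intro h1
    have h2 := natDegree_eq_zero_of_derivative_eq_zero h1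
    omega
  refine ⟨⟨two_ne_zero, ?_, ?_, ?_, ?_, ?_, ?_⟩, ?_⟩
  · rw [hgs]
    exact Pool.Agent.Q45.TG.gs_monic ha hpos
  · rw [hgs, hdeg]
    exact hodd
  · rw [hgs, hdeg]
    exact h3
  · rw [hgs]
    exact Pool.Agent.Q45.TG.gs_der hder
  · rw [hgs]
    exact Pool.Agent.Q45.TG.gs_smooth a
  · have h1 : extendPoly k' (a.map C + C X) = (a.map (algebraMap k k')).map C + C X := by
      unfold extendPoly
      rw [Polynomial.map_add, map_C, coe_mapRingHom, map_X, Polynomial.map_map, Polynomial.map_map]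
      congr 2
      refine RingHom.ext fun c => ?_
      show (C c : k[X]).map (algebraMap k k') = C (algebraMap k k' c)
      rw [map_C]
    unfold IsAffineLine
    rw [h1]
    exact line_gs _
  · intro G hG i hi
    rw [hgs] at hi ⊢
    rw [hdeg] at hi ⊢
    have h1 : ((Pool.Agent.Q45.TG.gs a).coeff i).natDegree ≤ 1 := by
      rw [← hgs, coeff_add, coeff_map, coeff_C]
      refine (natDegree_add_le _ _).trans (max_le ?_ ?_)
      · rw [natDegree_C]
        exact Nat.zero_le _
      · split_ifs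
        · exact natDegree_X_le
        · rw [natDegree_zero]
          exact Nat.zero_le _
    rcases Nat.eq_zero_or_pos i with h0 | h0
    · rw [h0, Nat.sub_zero]
      have h2 : 3 * 1 ≤ a.natDegree * G.natDegree := Nat.mul_le_mul h3 hG
      rw [h0] at h1
      omega
    · have h2 : (Pool.Agent.Q45.TG.gs a).coeff i = C (a.coeff i) := by
        rw [← hgs, coeff_add, coeff_map, coeff_C, if_neg h0.ne', add_zero]
      rw [h2, natDegree_C]
      exact Nat.mul_pos (by omega) hG

/-- **Open image for surfaces branched along sections, independently of an arbitrary Galois module.** -/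
theorem result : JointImage ∧ AlmostAllSections ∧ Lines := ⟨jointImage, almostAll, lines⟩

end Pool.Agent.Results.MP_2b5912_ag.SurfacesBranchedAlongSections
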