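import Pool.Agent.Q170.MT.Fin
import Pool.Agent.Q170.MT.Stab

/-!
# MP_2b5912_ag: the index of the Galois image in the integral Mumford-Tate group, uniformly in the prime,
# in the number field and in the member of families of products of elliptic curves

Let `j_i = F_i/G_i`, `i = 1, …, m`, be rational functions of `r` parameters `t = (t_1, …, t_r)`, quotients
of polynomials with integral coefficients. For integral `t` we consider all products
`X = E_1^{n_1} × … × E_m^{n_m}` of elliptic curves with the invariants `j(E_i) = j_i(t)` over all number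
fields `L`; all twists are admitted.

By the Kunneth formula `H²(X, ℤ_ℓ(1))` is a direct sum of trivial representations and of
representations `Hom(T_ℓ E_i, T_ℓ E_k)`, so the image of `Γ_L = Gal(L̄/L)` in `GL(H²(X, ℤ_ℓ(1)))` is its
image in the group of the tuples `(g_i)` of elements of `GL₂(ℤ_ℓ)` modulo homotheties, which act by
`φ ↦ g_k φ g_i⁻¹`. If the curves are without complex multiplication and pairwise not isogenous over
`L̄`, then the Mumford-Tate group of `H²(X, ℤ(1))` is `𝐆 = {(g_i) : det g_i = det g_k} / 𝐆_m`, and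
`𝐆(ℤ_ℓ) = {(g_i) ∈ GL₂(ℤ_ℓ)^m : det g_i = det g_k} / ℤ_ℓ^*`. The image of `Γ_L` is contained in it, by
the Weil pairing, and the field `L` is connected. Serre's question asks for a bound `C(X)` for the index,
for all `ℓ`. The transcendental part of `H²` of the Kummer surface of `E_i × E_k` is that of
`E_i × E_k`, up to `2`.

We say that `L` is *slightly ramified* at `p` if no ramification index of `L` over `ℚ`, above any prime
number, is divisible by `p`, and the ramification indices above `p` are less than `(p² - 1)/8`. There is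
no condition on the degree. All `L` of degree less than `p ≥ 11` are slightly ramified at `p`, see (1).
Let `κ > 0` and `N ≥ 13` and suppose:

* every `j_i` has a pole along a hypersurface `P = 0` (`P` irreducible and not constant, `w ≥ 1` the
  exact exponent of `P` in `G_i`, `P` does not divide `F_i`) with `w < N` and
  `(deg P + 2 d_i / w) / N ≤ κ`, `d_i` the degree of `j_i`;
* for every pair `i ≠ k` one of the two functions has such a pole with `deg P / N ≤ κ` which is not a
  pole of the other one.

**Theorem.** (2) For all but at most `C H ^ (r - 1 + κ + ε)` of the about `(2 H) ^ r` integral `t` with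
`|t_j| ≤ H`, the following is true for ALL number fields `L`, ALL elliptic curves `E_i` over `L` with
the invariants `j_i(t)`, and ALL natural numbers `n` whose prime factors `p` are at least `N` and such
that `L` is slightly ramified at `p`:

(a) the image of `Γ_L` in `∏ Aut(E_i[n])` CONTAINS `∏ SL₂(ℤ/n)` (independence of the curves and of the
primes, also over `L(ζ_n)`);

(b) for powers `n = p^k` of a prime the image of `Γ_L` in `𝐆(ℤ/n)` has index `1` or `2`: so the index of
the image in `𝐆(ℤ_p)` is AT MOST TWO, for all `X`, all `L` and all `p` as above: the constant of the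
integral Mumford-Tate conjecture is `2`, uniformly in `X`, `L` and `ℓ ≥ N`;

(c) the `Γ_L`-equivariant homomorphisms `E_i[n] → E_k[n]`, `i ≠ k`, are zero, and the `Γ_L`-equivariant
endomorphisms of `E_i[n]` are the multiplications by integers: `H²(X, ℤ/n(1))^{Γ_L}` is generated by
divisor classes, and the Brauer group of `X` over `L̄` has no nonzero `Γ_L`-invariant element of order
dividing `n` (the same is true for the Kummer surfaces);

(d) the `Γ_L`-stable subgroups of `∏ E_i[n]` are the groups `∏ E_i[d_i]`, `d_i | n`: every abelian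
variety over `L` which is isogenous to `∏ E_i` by an isogeny of degree dividing a power of `n` is
isomorphic to `∏ E_i`.

The index two in (b) is best possible: it is attained if `L` contains the square root of `±p` in
`ℚ(ζ_p)`. The exponent `r - 1`, which we approach for `N → ∞`, is best possible in many cases, since
`j_1(t) = j₀` for the invariants `j₀` of curves with complex multiplication, or `Φ_n(j_1, j_2) = 0` for
pairs with an isogeny of degree `n`, is a hypersurface, which can contain that many integral points.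

Examples. All tuples of `m` rational invariants, `j_i = t_{2i-1}/t_{2i}`, `r = 2m`: all but
`C H ^ (2m - 1 + 3/N + ε)` of the about `(2H) ^ (2m)` tuples. All tuples of `m` curves
`y² = x³ + A_i x + B_i`, `r = 2m`: all but `C H ^ (2m - 1 + 9/N + ε)`. The pairs of Legendre curves
with the parameters `λ` and `λ + 1`, `λ = t_1/t_2`: all but `C H ^ (1 + 7/N + ε)`, since the pole
`λ = 1` of the first one is not a pole of the second one.

Known results. For a single abelian variety with the Mumford-Tate conjecture the integral conjecture is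
due to Cadoret and Moonen; for products of elliptic curves it is due to Serre, and explicit bounds, which
depend on the heights of the curves and on the degree of the field, are due to Masser-Wüstholz and
Lombardo. For a fixed field `L` the full image for 100 per cent of the members is known (Jones, Cojocaru,
Zywina, Landesman-Swaminathan-Tao-Xu; large sieve, saving `H ^ (1/2)`). New are the constant `2` for
all `L` slightly ramified at `ℓ`, of any degree, at the same time, and the exponent. The case `m = 1`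
modulo primes is our `MP_cda23d_nt.UniformOpenImage`; congruences between two members (bounded degree)
are our `MP_f5d5f4_nt.MultiParameterPairs`.

**Proof.** Let `p ≥ N` and `L` slightly ramified at `p`. The image in each `Aut(E_i[p])` contains
`SL₂(𝔽_p)`, for all `t` with the stated exceptions, by `Pool.Agent.Q170.SU.count_SL`. Suppose that for a
pair of curves the elements of the Galois group which act on `E_i[p] × E_k[p]` with `p`-power order act
trivially on `E_i[p]` if and only if they act trivially on `E_k[p]`. Let `q > 3` be a prime dividing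
`P(t)` and not dividing the value of a resultant, `P` the pole for the pair, and `v` a place of `L`
above `q`. So `v(j_i) = - e w v_q(P(t)) < 0` and `j_k` is integral at `v`. By the local theorem
`Pool.Agent.Y673.FM.loc` of the starting files, whose proof works under our weaker hypothesis, `p`
divides `v(j_i)`. So `P(t)` is a `p`-th power up to the prime factors of the resultant and of `6`, and
there are few such `t`. In all other cases there is an element of the Galois group which acts trivially
on one of the groups `E_i[p]`, `E_k[p]` and with order `p` on the other. Since a normal subgroup of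
`SL₂(𝔽_p)` with an element of order `p` is the whole group, and `SL₂(𝔽_p)` is perfect, Ribet's argument
shows that the image modulo `p` contains `∏ SL₂(𝔽_p)`; then it contains `∏ SL₂(ℤ/p^k)` (Serre's lifting
argument). If `p` is the largest prime factor of `n = p^k n'`, then `p` does not divide the exponent of
`GL₂(ℤ/n')`; so unipotent elements of `∏ SL₂(ℤ/p^k)` are realised by elements which act trivially on
`E_i[n']`, and (a) follows by induction. (b), (c), (d) follow from (a).
-/

set_option autoImplicit false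

open MvPolynomial NumberField IsDedekindDomain
open scoped Classical

namespace Pool.Agent.Results.MP_2b5912_ag.UniformIndexForProducts

section
variable {L : Type} [Field L]

/-- The curve `y² = x³ + Ax + B` over `L`. -/
def curve (A B : L) : WeierstrassCurve L := ⟨0, 0, 0, A, B⟩

/-- The group of its points over the algebraic closure of `L`. -/
abbrev Points (A B : L) : Type := ((curve A B).baseChange (AlgebraicClosure L)).toAffine.Point

/-- The action of an `L`-automorphism `σ` of the algebraic closure on the points. -/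
noncomputable def galois (A B : L) (σ : AlgebraicClosure L ≃ₐ[L] AlgebraicClosure L) :
    Points A B →+ Points A B :=
  WeierstrassCurve.Affine.Point.map (σ : AlgebraicClosure L →ₐ[L] AlgebraicClosure L)

/-- The points `P` and `Q` form a basis of the `n`-torsion. -/
def IsBasis (A B : L) (n : ℕ) (P Q : Points A B) : Prop :=
  n • P = 0 ∧ n • Q = 0 ∧
    (∀ R : Points A B, n • R = 0 → ∃ x y : ℤ, R = x • P + y • Q) ∧
    ∀ x y : ℤ, x • P + y • Q = 0 → (n : ℤ) ∣ x ∧ (n : ℤ) ∣ y

/-- The invariant of `y² = x³ + Ax + B`. -/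
noncomputable def jInvariant (A B : L) : L := 6912 * A ^ 3 / (4 * A ^ 3 + 27 * B ^ 2)

variable {m : ℕ}

/-- Every tuple of matrices of determinant `1` modulo `n` is the tuple of the matrices of some `σ` with
respect to the bases `P i`, `Q i`. -/
def ContainsProduct (A B : Fin m → L) (n : ℕ) (P Q : ∀ i, Points (A i) (B i)) : Prop :=
  ∀ a b c d : Fin m → ℤ, (∀ i, (n : ℤ) ∣ a i * d i - b i * c i - 1) →
    ∃ σ : AlgebraicClosure L ≃ₐ[L] AlgebraicClosure L, ∀ i,
      galois (A i) (B i) σ (P i) = a i • P i + c i • Q i ∧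
      galois (A i) (B i) σ (Q i) = b i • P i + d i • Q i

/-- The invertible matrix `g` is the matrix of `σ` with respect to the basis `P`, `Q`. -/
def IsMatrixOf (A B : L) {n : ℕ} (P Q : Points A B) (g : GL (Fin 2) (ZMod n))
    (σ : AlgebraicClosure L ≃ₐ[L] AlgebraicClosure L) : Prop :=
  galois A B σ P = (g.1 0 0).val • P + (g.1 1 0).val • Q ∧
    galois A B σ Q = (g.1 0 1).val • P + (g.1 1 1).val • Q

/-- The image of the Galois group in the group of tuples of invertible matrices modulo `n` (the group
generated by the tuples of matrices of the `σ`, which already form a group). -/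
def galoisImage (A B : Fin m → L) (n : ℕ) (P Q : ∀ i, Points (A i) (B i)) :
    Subgroup (Fin m → GL (Fin 2) (ZMod n)) :=
  Subgroup.closure {g | ∃ σ, ∀ i, IsMatrixOf (A i) (B i) (P i) (Q i) (g i) σ}

/-- The homotheties: the same scalar matrix at all places. -/
def homotheties (m n : ℕ) : Subgroup (Fin m → GL (Fin 2) (ZMod n)) :=
  Subgroup.closure {g | ∃ u : (ZMod n)ˣ, ∀ i, (g i).1 = (u : ZMod n) • 1}

/-- The tuples of invertible matrices modulo `n` with equal determinants. -/
def EqualDet (m n : ℕ) : Subgroup (Fin m → GL (Fin 2) (ZMod n)) where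
  carrier := {g | ∀ i k, (g i).det = (g k).det}
  mul_mem' := by
    intro a b ha hb i j
    show (a i * b i).det = (a j * b j).det
    rw [map_mul, map_mul, ha i j, hb i j]
  one_mem' := by
    intro i j
    rfl
  inv_mem' := by
    intro a ha i j
    show ((a i)⁻¹).det = ((a j)⁻¹).det
    rw [map_inv, map_inv, ha i j]

/-- The index of the image of the Galois group in `{(g_i) : det g_i = det g_k}` modulo homotheties is
`1` or `2`. -/
def IndexAtMostTwo (A B : Fin m → L) (n : ℕ) (P Q : ∀ i, Points (A i) (B i)) : Prop :=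
  (galoisImage A B n P Q ⊔ homotheties m n).relIndex (EqualDet m n) = 1 ∨
    (galoisImage A B n P Q ⊔ homotheties m n).relIndex (EqualDet m n) = 2

/-- The function `φ` restricts to a homomorphism from the `n`-torsion of the first curve to the
`n`-torsion of the second one which commutes with the Galois group. -/
def IsEquivariant (A B A' B' : L) (n : ℕ) (φ : Points A B → Points A' B') : Prop :=
  (∀ P Q, n • P = 0 → n • Q = 0 → φ (P + Q) = φ P + φ Q) ∧
    (∀ P, n • P = 0 → n • φ P = 0) ∧
    ∀ σ P, n • P = 0 → φ (galois A B σ P) = galois A' B' σ (φ P)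

/-- The equivariant homomorphisms between different curves are zero, and the equivariant endomorphisms
are the multiplications by integers. -/
def OnlyScalars (A B : Fin m → L) (n : ℕ) : Prop :=
  (∀ i k, i ≠ k → ∀ φ, IsEquivariant (A i) (B i) (A k) (B k) n φ → ∀ P, n • P = 0 → φ P = 0) ∧
    ∀ i φ, IsEquivariant (A i) (B i) (A i) (B i) n φ → ∃ x : ℤ, ∀ P, n • P = 0 → φ P = x • P

/-- The stable subgroups of the `n`-torsion of the product of the curves are the products of the groups
of the points of order dividing `d i`, for divisors `d i` of `n`. -/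
def OnlyObviousSubgroups (A B : Fin m → L) (n : ℕ) : Prop :=
  ∀ W : AddSubgroup (∀ i, Points (A i) (B i)), (∀ w ∈ W, n • w = 0) →
    (∀ (σ : AlgebraicClosure L ≃ₐ[L] AlgebraicClosure L), ∀ w ∈ W,
      (fun i => galois (A i) (B i) σ (w i)) ∈ W) →
    ∃ d : Fin m → ℕ, (∀ i, d i ∣ n) ∧ ∀ w, w ∈ W ↔ ∀ i, d i • w i = 0

end

/-- No ramification index `e` of `L` over `ℚ`, above any prime number `q`, is divisible by `p`, and
those above `p` are less than `(p² - 1)/8`. -/
def SlightlyRamified (p : ℕ) (L : Type) [Field L] [NumberField L] : Prop :=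
  ∀ (v : HeightOneSpectrum (𝓞 L)) (q e : ℕ), q.Prime → 1 ≤ e →
    (q : 𝓞 L) ∈ v.asIdeal ^ e → (q : 𝓞 L) ∉ v.asIdeal ^ (e + 1) →
      ¬ p ∣ e ∧ (q = p → 8 * e + 1 < p ^ 2)

/-- For all number fields `L`, all elliptic curves over `L` with the invariants `j i`, and all `n ≥ 1`
whose prime factors `p` are at least `N` and such that `L` is slightly ramified at `p`, the image of the
Galois group on the `n`-torsion is as large as possible, and its index in the group of the tuples with
equal determinants modulo homotheties is at most two if `n` is a power of a prime. -/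
def UniformImage {m : ℕ} (N : ℕ) (j : Fin m → ℚ) : Prop :=
  ∀ (L : Type) [Field L] [NumberField L] (A B : Fin m → L),
    (∀ i, 4 * A i ^ 3 + 27 * B i ^ 2 ≠ 0) → (∀ i, jInvariant (A i) (B i) = algebraMap ℚ L (j i)) →
    ∀ n : ℕ, n ≠ 0 → (∀ p : ℕ, p.Prime → p ∣ n → N ≤ p ∧ SlightlyRamified p L) →
      (∃ P Q : ∀ i, Points (A i) (B i), (∀ i, IsBasis (A i) (B i) n (P i) (Q i)) ∧
        ContainsProduct A B n P Q ∧ (IsPrimePow n → IndexAtMostTwo A B n P Q)) ∧
      OnlyScalars A B n ∧ OnlyObviousSubgroups A B n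

/-- `P = 0` is a pole of order `w` of `F/G`: the polynomial `P` is irreducible and not constant, `w ≥ 1`
is its exact exponent in `G`, and it does not divide `F`. -/
def IsPole {r : ℕ} (F G P : MvPolynomial (Fin r) ℤ) (w : ℕ) : Prop :=
  Irreducible P ∧ 0 < P.totalDegree ∧ 1 ≤ w ∧ P ^ w ∣ G ∧ ¬ P ^ (w + 1) ∣ G ∧ ¬ P ∣ F

/-- Every `F i / G i` has a pole `P` of order `w < N` with `(deg P + 2 d / w) / N ≤ κ`, where `d` is its
degree. -/
def HavePoles {r m : ℕ} (F G : Fin m → MvPolynomial (Fin r) ℤ) (N : ℕ) (κ : ℝ) : Prop :=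
  ∀ i, ∃ P w, IsPole (F i) (G i) P w ∧ w < N ∧ ((P.totalDegree : ℝ) +
    2 * (max (F i).totalDegree (G i).totalDegree : ℕ) / (w : ℝ)) / N ≤ κ

/-- For each pair `i ≠ k` one of `F i / G i`, `F k / G k` has a pole `P` of order `w < N`, with
`deg P / N ≤ κ`, and `P` does not divide the denominator of the other one. -/
def SeparatePoles {r m : ℕ} (F G : Fin m → MvPolynomial (Fin r) ℤ) (N : ℕ) (κ : ℝ) : Prop :=
  ∀ i k, i ≠ k → ∃ P w, w < N ∧ (P.totalDegree : ℝ) / N ≤ κ ∧
    ((IsPole (F i) (G i) P w ∧ ¬ P ∣ G k) ∨ (IsPole (F k) (G k) P w ∧ ¬ P ∣ G i))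

/-- The integral parameters in the box of size `H` for which `UniformImage` fails. -/
def exceptional {r m : ℕ} (F G : Fin m → MvPolynomial (Fin r) ℤ) (N H : ℕ) :
    Set (Fin r → ℤ) :=
  {t | (∀ j, |t j| ≤ H) ∧ (∀ i, eval t (G i) ≠ 0) ∧
    ¬ UniformImage N (fun i => (eval t (F i) : ℚ) / (eval t (G i) : ℚ))}

theorem mild_of {p : ℕ} {L : Type} [Field L] [NumberField L] (h : SlightlyRamified p L) :
    Pool.Agent.Q170.SU.Mild L p := by
  intro v q hq hmem
  have hpos := Pool.Agent.Q170.FZ.adv_pos v hq hmem
  have hq0 : (q : 𝓞 L) ≠ 0 := Nat.cast_ne_zero.2 hq.ne_zero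
  have e : algebraMap (𝓞 L) L (q : 𝓞 L) = (q : L) := map_natCast _ q
  obtain ⟨n, hn⟩ : ∃ n : ℕ, (n : ℤ) = (Pool.Agent.Y673.Loc.adv L v).v (q : L) :=
    ⟨_, Int.toNat_of_nonneg (by omega)⟩
  have h1 : 1 ≤ n := by omega
  have h2 := (Pool.Agent.Y673.Loc.le_adv_iff L v (q : 𝓞 L) hq0 n).1 (by rw [e, hn])
  have h3 : (q : 𝓞 L) ∉ v.asIdeal ^ (n + 1) := by
    intro h4
    have h5 := (Pool.Agent.Y673.Loc.le_adv_iff L v (q : 𝓞 L) hq0 (n + 1)).2 h4
    rw [e, ← hn] at h5
    push_cast at h5
    omega
  obtain ⟨h4, h5⟩ := h v q n hq h1 h2 h3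
  rw [← hn]
  refine ⟨fun h6 => h4 (by exact_mod_cast h6), fun h6 => ?_⟩
  have h7 : (8 : ℤ) * n + 1 < (p : ℤ) ^ 2 := by exact_mod_cast h5 h6
  omega

theorem of_mild {p : ℕ} {L : Type} [Field L] [NumberField L]
    (h : Pool.Agent.Q170.SU.Mild L p) : SlightlyRamified p L := by
  intro v q n hq h1 h2 h3
  have hmem : (q : 𝓞 L) ∈ v.asIdeal := by
    have h4 := Ideal.pow_le_pow_right (I := v.asIdeal) h1 h2
    rwa [pow_one] at h4
  have hq0 : (q : 𝓞 L) ≠ 0 := Nat.cast_ne_zero.2 hq.ne_zero
  have e : algebraMap (𝓞 L) L (q : 𝓞 L) = (q : L) := map_natCast _ q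
  have h4 := (Pool.Agent.Y673.Loc.le_adv_iff L v (q : 𝓞 L) hq0 n).2 h2
  have h5 : ¬ ((n + 1 : ℕ) : ℤ) ≤ (Pool.Agent.Y673.Loc.adv L v).v (q : L) := by
    intro h6
    rw [← e] at h6
    exact h3 ((Pool.Agent.Y673.Loc.le_adv_iff L v (q : 𝓞 L) hq0 (n + 1)).1 h6)
  rw [e] at h4
  push_cast at h5
  have hn : (Pool.Agent.Y673.Loc.adv L v).v (q : L) = n := by omega
  obtain ⟨h6, h7⟩ := h v q hq hmem
  rw [hn] at h6 h7
  refine ⟨fun h8 => h6 (by exact_mod_cast h8), fun h8 => ?_⟩
  have h9 := h7 h8
  have h10 : (8 : ℤ) * n + 1 < (p : ℤ) ^ 2 := by omega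
  exact_mod_cast h10

section consequences
variable {L : Type} [Field L] {m : ℕ}

theorem index_of (A B : Fin m → L) {n : ℕ} (hn : IsPrimePow n) (h2 : ¬ 2 ∣ n)
    {P Q : ∀ i, Points (A i) (B i)} (h : ContainsProduct A B n P Q) :
    IndexAtMostTwo A B n P Q := by
  obtain ⟨p, k, hp, hk, rfl⟩ := (isPrimePow_nat_iff _).1 hn
  have hp2 : p ≠ 2 := by
    rintro rfl
    exact h2 (dvd_pow_self 2 (by omega))
  have : NeZero (p ^ k) := ⟨pow_ne_zero _ hp.ne_zero⟩
  refine Pool.Agent.Q170.MT.index_two (ι := Fin m) hp hp2 k _ fun u g hg => ?_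
  -- the homothety
  set s : Fin m → GL (Fin 2) (ZMod (p ^ k)) := fun _ =>
    ⟨(u : ZMod (p ^ k)) • 1, ((u⁻¹ : (ZMod (p ^ k))ˣ) : ZMod (p ^ k)) • 1, by
      rw [smul_mul_smul_comm, mul_one, ← Units.val_mul, mul_inv_cancel, Units.val_one, one_smul],
      by
      rw [smul_mul_smul_comm, mul_one, ← Units.val_mul, inv_mul_cancel, Units.val_one, one_smul]⟩
    with hs
  have hsm : s ∈ homotheties m (p ^ k) := Subgroup.subset_closure ⟨u, fun _ => rfl⟩
  have hdets : ∀ i, (s i).det = u ^ 2 := by
    intro i
    apply Units.ext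
    show ((u : ZMod (p ^ k)) • (1 : Matrix (Fin 2) (Fin 2) (ZMod (p ^ k)))).det = _
    rw [Matrix.det_smul, Matrix.det_one, mul_one, Fintype.card_fin, Units.val_pow_eq_pow_val]
  have hg1 : s⁻¹ * g ∈ galoisImage A B (p ^ k) P Q := by
    have hdet : ∀ i, ((s⁻¹ * g) i).det = 1 := by
      intro i
      show ((s i)⁻¹ * g i).det = 1
      rw [map_mul, map_inv, hdets i, hg i, inv_mul_cancel]
    obtain ⟨x, hx⟩ : ∃ x, x = s⁻¹ * g := ⟨_, rfl⟩
    rw [← hx] at hdet ⊢
    obtain ⟨σ, hσ⟩ := h (fun i => ((x i).1 0 0).val) (fun i => ((x i).1 0 1).val)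
      (fun i => ((x i).1 1 0).val) (fun i => ((x i).1 1 1).val) (by
        intro i
        have h3 := congrArg Units.val (hdet i)
        have h4 : (x i).1.det = 1 := h3
        rw [Matrix.det_fin_two] at h4
        rw [← ZMod.intCast_zmod_eq_zero_iff_dvd]
        push_cast
        rw [ZMod.natCast_zmod_val, ZMod.natCast_zmod_val, ZMod.natCast_zmod_val,
          ZMod.natCast_zmod_val]
        linear_combination h4)
    refine Subgroup.subset_closure ⟨σ, fun i => ?_⟩
    obtain ⟨h5, h6⟩ := hσ i
    constructor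
    · rw [h5, natCast_zsmul, natCast_zsmul]
    · rw [h6, natCast_zsmul, natCast_zsmul]
  have e : g = s * (s⁻¹ * g) := by rw [mul_inv_cancel_left]
  rw [e]
  exact Subgroup.mul_mem _ (Subgroup.mem_sup_right hsm) (Subgroup.mem_sup_left hg1)

theorem scalars_of (A B : Fin m → L) {n : ℕ} {P Q : ∀ i, Points (A i) (B i)}
    (hB : ∀ i, IsBasis (A i) (B i) n (P i) (Q i)) (h : ContainsProduct A B n P Q) :
    OnlyScalars A B n := by
  have HB : ∀ i, Pool.Agent.Q170.MT.Bs n (P i) (Q i) := fun i =>
    ⟨(hB i).1, (hB i).2.1, (hB i).2.2.1, (hB i).2.2.2⟩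
  have H : Pool.Agent.Q170.MT.Rl (fun i => galois (A i) (B i)) n P Q := h
  constructor
  · intro i k hik φ hφ v hv
    exact Pool.Agent.Q170.MT.hom_ne HB H hik φ hφ.1 hφ.2.1 hφ.2.2 v hv
  · intro i φ hφ
    exact Pool.Agent.Q170.MT.hom_eq HB H i φ hφ.1 hφ.2.1 hφ.2.2

theorem subgroups_of (A B : Fin m → L) {n : ℕ} (hn : n ≠ 0) {P Q : ∀ i, Points (A i) (B i)}
    (hB : ∀ i, IsBasis (A i) (B i) n (P i) (Q i)) (h : ContainsProduct A B n P Q) :
    OnlyObviousSubgroups A B n := by
  intro W hW hst
  exact Pool.Agent.Q170.MT.stable (ρ := fun i => galois (A i) (B i)) hn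
    (fun i => ⟨(hB i).1, (hB i).2.1, (hB i).2.2.1, (hB i).2.2.2⟩) h W hW hst

end consequences

/-- **The uniform integral Mumford-Tate theorem for almost all members of families of products of
elliptic curves.** -/
theorem result :
    -- (1) all number fields of degree less than `p` are slightly ramified at `p ≥ 11`
    (∀ (p : ℕ) (L : Type) [Field L] [NumberField L], Module.finrank ℚ L < p →
      8 * Module.finrank ℚ L + 1 < p ^ 2 → SlightlyRamified p L) ∧
    -- (2) the image, for almost all members
    ∀ (r m : ℕ) (F G : Fin m → MvPolynomial (Fin r) ℤ) (N : ℕ) (κ : ℝ), 13 ≤ N →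
      HavePoles F G N κ → SeparatePoles F G N κ →
      ∀ ε : ℝ, 0 < ε → ∃ C : ℝ, 0 < C ∧ ∀ H : ℕ, 1 ≤ H →
        ((exceptional F G N H).ncard : ℝ) ≤ C * (H : ℝ) ^ ((r : ℝ) - 1 + κ + ε) := by
  refine ⟨fun p L _ _ h1 h2 => of_mild (Pool.Agent.Q170.SU.mild_of_degree h1 h2), ?_⟩
  intro r m F G N κ hN hs hd ε hε
  have pl : ∀ {F G P : MvPolynomial (Fin r) ℤ} {w : ℕ}, IsPole F G P w →
      Pool.Agent.Q170.MT.Pl F G P w := fun h =>
    ⟨h.1, h.2.1, h.2.2.1, h.2.2.2.1, h.2.2.2.2.1, h.2.2.2.2.2⟩
  obtain ⟨C, hC, h⟩ := Pool.Agent.Q170.MT.main F G N hN κ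
    (fun i => by
      obtain ⟨P, w, h1, h2, h3⟩ := hs i
      exact ⟨P, w, pl h1, h2, h3⟩)
    (fun i k hik => by
      obtain ⟨P, w, h2, h3, h1⟩ := hd i k hik
      exact ⟨P, w, h2, h3, h1.imp (fun h => ⟨pl h.1, h.2⟩) (fun h => ⟨pl h.1, h.2⟩)⟩) ε hε
  refine ⟨C, hC, fun H hH => ?_⟩
  obtain ⟨S, hS⟩ : ∃ S, S = exceptional F G N H := ⟨_, rfl⟩
  rw [← hS]
  have hsub : S ⊆ ((Pool.Agent.Q170.ZP.Count.box r H : Finset (Fin r → ℤ)) :
      Set (Fin r → ℤ)) := by
    intro t ht
    rw [hS] at ht
    exact Finset.mem_coe.2 (Pool.Agent.Q170.ZP.Count.mem_box.2 ht.1)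
  have hfin : S.Finite := (Finset.finite_toSet _).subset hsub
  rw [Set.ncard_eq_toFinset_card S hfin]
  refine h H hH hfin.toFinset (fun t ht => Finset.mem_coe.1 (hsub (hfin.mem_toFinset.1 ht)))
    fun t ht => ?_
  have htS := hfin.mem_toFinset.1 ht
  rw [hS] at htS
  obtain ⟨-, hG, hno⟩ := htS
  refine ⟨hG, ?_⟩
  by_contra hgood
  apply hno
  intro L iF iN A B hD hj n hn hnp
  have hgd : Pool.Agent.Q170.MT.Good (fun i => Pool.Agent.Y673.Loc.act (A i) (B i)) n := by
    by_contra hbad
    refine hgood ⟨L, iF, iN, A, B, hD, fun i => ?_, n, hn, fun q hq hqn => ?_, hbad⟩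
    · refine (hj i).trans ?_
      rw [map_div₀, map_intCast, map_intCast]
    · obtain ⟨h1, h2⟩ := hnp q hq hqn
      exact ⟨h1, mild_of h2⟩
  obtain ⟨P, Q, hB, hall⟩ := hgd.bas
  have hbas : ∀ i, IsBasis (A i) (B i) n (P i) (Q i) := fun i =>
    ⟨(hB i).hP, (hB i).hQ, (hB i).span, (hB i).indep⟩
  have hcp : ContainsProduct A B n P Q := by
    intro a b c d hdet
    obtain ⟨σ, -, hσ⟩ := hall a b c d hdet
    exact ⟨σ, hσ⟩
  refine ⟨⟨P, Q, hbas, hcp, fun hpp => index_of A B hpp (fun h2 => ?_) hcp⟩,
    scalars_of A B hbas hcp, subgroups_of A B hn hbas hcp⟩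
  have := (hnp 2 Nat.prime_two h2).1
  omega

end Pool.Agent.Results.MP_2b5912_ag.UniformIndexForProducts
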